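import Pool.Agent.L7h33.BD.Fun2

/-! # Rearrangements and terminal states -/

set_option autoImplicit false

namespace Pool.Agent.L7h33.BD

/-- `u` and `v` lie in the same tree of the rooted forest `par`. -/
def SameT {V : Type*} (par : V → V) (u v : V) : Prop := ∃ r, par r = r ∧ Anc par u r ∧ Anc par v r

/-- The inner part of `p`: the arcs inside the trees of `par`. -/
noncomputable def inn {V : Type*} (par p : V → V) : V → V :=
  fun v => by classical exact if SameT par v (p v) then p v else v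

/-- `(par', p')` is a rearrangement of `(par, p)` inside the trees of `par`. -/
structure Rea {V : Type*} (par p par' p' : V → V) : Prop where
  fix : ∀ v, par' v = v ↔ par v = v
  same : ∀ v, SameT par v (par' v)
  pfix : ∀ v, p' v = v ↔ p v = v
  pout : ∀ v, ¬ SameT par v (p v) → p' v = p v
  pin : ∀ v, SameT par v (p v) → SameT par v (p' v)
  edges : ∀ u v, u ≠ v → ((par' u = v ∨ par' v = u ∨ p' u = v ∨ p' v = u) ↔
    (par u = v ∨ par v = u ∨ p u = v ∨ p v = u))

/-- Terminal states with skeleton `Sk`. -/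
structure Term {V : Type*} (par p : V → V) (N : ℕ) (Sk : Set V) (par' p' : V → V) : Prop where
  rea : Rea par p par' p'
  dp : Dp par' N
  root : ∀ v, par v = v → v ∈ Sk
  up : ∀ v, v ∈ Sk → par v ∈ Sk
  off : ∀ v, v ∉ Sk → par' v = par v
  up' : ∀ v, v ∈ Sk → par' v ∈ Sk
  chain : ∀ a, a ∈ Sk → p' a ≠ a → Anc par' (p' a) a → ∃ j ≤ N, ∃ x : ℕ → V, x 0 = a ∧
    (∀ i ≤ j, x i ∈ Sk) ∧
    (∀ i < j, p' (x i) ≠ x i ∧ Anc par' (p' (x i)) (x (i + 1)) ∧ Anc par' (x (i + 1)) a ∧
      x (i + 1) ≠ a) ∧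
    (p' (x j) = x j ∨ ¬ Anc par' (p' (x j)) a)
  acyc : ∃ φ : V → ℕ, ∀ v, p' v ≠ v →
    (∃ u, u ∈ Sk ∧ Anc (cutf par Sk) v u ∧ Anc (cutf par Sk) (p' v) u) → φ (p' v) < φ v

/-- Terminal states exist for trees. -/
def TreeTerm : Prop := ∀ h : ℕ, ∃ N, ∀ (X : Type) [Fintype X] (par p : X → X) (x : X),
  par x = x → (∀ v, Anc par v x) → Dp par h → Acy p → ∃ Sk par' p', Term par p N Sk par' p'

/-- Terminal states exist for forests. -/
def ForTerm : Prop := ∀ h : ℕ, ∃ N, ∀ (X : Type) [Fintype X] (par p : X → X),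
  Dp par h → Acy (inn par p) → ∃ Sk par' p', Term par p N Sk par' p'

/-- Bounded chains after a rearrangement. -/
def ThmA : Prop := ∀ h : ℕ, ∃ N m, ∀ (X : Type) [Fintype X] (par p : X → X),
  Dp par h → Acy (inn par p) → ∃ par' p', Rea par p par' p' ∧ Dp par' N ∧ ChainP par' p' m

end Pool.Agent.L7h33.BD
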