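import Pool.Agent.L7h33.BD.Fun


/-! # Rearranging cut edges in a rooted forest: a determinant argument (proved by helper90; copy of Pool/Agent/L7h90/BD/LE.lean) -/

set_option autoImplicit false
set_option linter.unusedSectionVars false

open Finset Matrix

namespace Pool.Agent.L7h33.LE90

open Pool.Agent.L7h33.BD

/-- Cauchy-Binet, averaged over maps. -/
theorem cb {V ι : Type} [Fintype V] [Fintype ι] [DecidableEq ι] (M : Matrix ι V ℚ)
    (N : Matrix V ι ℚ) :
    ((Fintype.card (Equiv.Perm ι) : ℕ) : ℚ) * (M * N).det =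
      ∑ r : ι → V, (M.submatrix id r).det * (N.submatrix r id).det := by
  classical
  have h1 : (M * N).det = ∑ r : ι → V, (M.submatrix id r).det * ∏ i, N (r i) i := by
    simp only [det_apply', mul_apply, prod_univ_sum, mul_sum, Fintype.piFinset_univ]
    rw [Finset.sum_comm]
    refine sum_congr rfl fun r _ => ?_
    rw [sum_mul]
    refine sum_congr rfl fun σ _ => ?_
    rw [prod_mul_distrib, mul_assoc]
    rfl
  have h2 : ∀ τ : Equiv.Perm ι, (M * N).det =
      ∑ r : ι → V, (M.submatrix id r).det * ((Equiv.Perm.sign τ : ℤ) * ∏ i, N (r (τ i)) i) := by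
    intro τ
    rw [h1]
    rw [← Equiv.sum_comp (Equiv.arrowCongr τ.symm (Equiv.refl V))]
    refine sum_congr rfl fun r _ => ?_
    have h3 : ∀ i, (Equiv.arrowCongr τ.symm (Equiv.refl V)) r i = r (τ i) := fun i => rfl
    have h4 : M.submatrix id ((Equiv.arrowCongr τ.symm (Equiv.refl V)) r) =
        (M.submatrix id r).submatrix id τ := rfl
    rw [h4, det_permute']
    simp only [h3]
    ring
  have h5 : ((Fintype.card (Equiv.Perm ι) : ℕ) : ℚ) * (M * N).det =
      ∑ τ : Equiv.Perm ι, (M * N).det := by
    rw [sum_const, card_univ, nsmul_eq_mul]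
  rw [h5, sum_congr rfl fun τ _ => h2 τ, Finset.sum_comm]
  refine sum_congr rfl fun r _ => ?_
  rw [← mul_sum, det_apply' (N.submatrix r id)]
  rfl

theorem exists_minor {V ι : Type} [Fintype V] [Fintype ι] [DecidableEq ι] (M : Matrix ι V ℚ)
    (N : Matrix V ι ℚ) (h : (M * N).det ≠ 0) :
    ∃ r : ι → V, (M.submatrix id r).det ≠ 0 ∧ (N.submatrix r id).det ≠ 0 := by
  classical
  by_contra hn
  push Not at hn
  have h1 := cb M N
  rw [sum_eq_zero] at h1
  · rcases mul_eq_zero.1 h1 with h2 | h2
    · rw [Nat.cast_eq_zero] at h2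
      exact Fintype.card_ne_zero h2
    · exact h h2
  · intro r _
    by_cases h2 : (M.submatrix id r).det = 0
    · rw [h2, zero_mul]
    · rw [hn r h2, mul_zero]

section

variable {V ι : Type} [Fintype V] [Fintype ι] [DecidableEq ι]

theorem lev_iter {p : V → V} {l : V → ℕ} (h1 : ∀ v, p v ≠ v → l v = l (p v) + 1)
    (h2 : ∀ v, p v = v → l v = 0) (v : V) : ∀ t, l (p^[t] v) = l v - t := by
  intro t
  induction t with
  | zero => rfl
  | succ t ih =>
    rw [Function.iterate_succ_apply']
    by_cases h : p (p^[t] v) = p^[t] v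
    · rw [h, ih]
      have := h2 _ h
      omega
    · have := h1 _ h
      omega

theorem lev_zero {p : V → V} {l : V → ℕ} (h1 : ∀ v, p v ≠ v → l v = l (p v) + 1)
    {v : V} (h : l v = 0) : p v = v := by
  by_contra hn
  have := h1 v hn
  omega

theorem abel (c : ℕ → ℚ) : ∀ n : ℕ, ∑ t ∈ range n, ((n : ℚ) - t) * (c t - c (t + 1)) =
    ∑ t ∈ range n, (c 0 - c (t + 1)) := by
  intro n
  induction n with
  | zero => simp
  | succ n ih =>
    have h1 : ∑ t ∈ range (n + 1), (((n + 1 : ℕ) : ℚ) - t) * (c t - c (t + 1)) =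
        ∑ t ∈ range (n + 1), ((n : ℚ) - t) * (c t - c (t + 1)) +
          ∑ t ∈ range (n + 1), (c t - c (t + 1)) := by
      rw [← sum_add_distrib]
      refine sum_congr rfl fun t _ => ?_
      push_cast
      ring
    rw [h1, sum_range_sub', sum_range_succ, ih, sum_range_succ]
    ring

theorem elim_sum (o : Option ι) (u : ι → ℚ) :
    ∑ j, (if o = some j then (1 : ℚ) else 0) * u j = o.elim 0 u := by
  cases o with
  | none => simp
  | some k => simp

theorem elim_mem (o : Option ι) (S : Finset ι) :
    o.elim 0 (fun j => if j ∈ S then (1 : ℚ) else 0) =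
      by classical exact if ∃ j ∈ S, o = some j then (1 : ℚ) else 0 := by
  classical
  cases o with
  | none => simp
  | some k => simp

/-- the maximum principle -/
theorem maxp {p : V → V} {l : V → ℕ} (hl1 : ∀ v, p v ≠ v → l v = l (p v) + 1)
    (hl2 : ∀ v, p v = v → l v = 0) {κ : V → Option ι} {z : ι → V}
    (hκ : ∀ i, κ (z i) = some i)
    (hstar : ∀ X : Finset ι, X.Nonempty → ∃ i ∈ X, ∃ t, ∀ j ∈ X, κ (p^[t] (z i)) ≠ some j)
    (u : ι → ℚ)
    (hQ : ∀ i, ∑ t ∈ range (l (z i)), (u i - (κ (p^[t + 1] (z i))).elim 0 u) = 0)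
    (hpos : ∃ i, 0 < u i) : False := by
  classical
  obtain ⟨i1, hi1⟩ := hpos
  haveI : Nonempty ι := ⟨i1⟩
  obtain ⟨i0, hi0⟩ := Finite.exists_max u
  have hm : 0 < u i0 := hi1.trans_le (hi0 i1)
  obtain ⟨i, hiX, t, ht⟩ := hstar (univ.filter fun j => u j = u i0)
    ⟨i0, by simp⟩
  have hui : u i = u i0 := (mem_filter.1 hiX).2
  have hle : ∀ v, (κ v).elim 0 u ≤ u i0 := by
    intro v
    cases κ v with
    | none => exact hm.le
    | some j => exact hi0 j
  have hall : ∀ s, (κ (p^[s] (z i))).elim 0 u = u i0 := by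
    intro s
    induction s with
    | zero => simp [hκ, hui]
    | succ s ih =>
      by_cases hs : s < l (z i)
      · have h1 := hQ i
        rw [sum_eq_zero_iff_of_nonneg] at h1
        · have h2 := h1 s (mem_range.2 hs)
          linarith
        · intro t _
          have := hle (p^[t + 1] (z i))
          linarith
      · have h1 := lev_iter hl1 hl2 (z i) s
        have h2 : p (p^[s] (z i)) = p^[s] (z i) := lev_zero hl1 (by omega)
        rw [Function.iterate_succ_apply', h2]
        exact ih
  have h1 := hall t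
  have h2 := ht
  cases h3 : κ (p^[t] (z i)) with
  | none =>
    rw [h3] at h1
    exact absurd h1 (by simpa using hm.ne)
  | some j =>
    rw [h3] at h1
    exact h2 j (mem_filter.2 ⟨mem_univ _, h1⟩) h3

theorem LE (p : V → V) (hp : Acy p) (κ : V → Option ι) (z : ι → V)
    (hκ : ∀ i, κ (z i) = some i)
    (hstar : ∀ X : Finset ι, X.Nonempty → ∃ i ∈ X, ∃ t, ∀ j ∈ X, κ (p^[t] (z i)) ≠ some j) :
    ∃ e : ι → V, Function.Injective e ∧ (∀ i, p (e i) ≠ e i) ∧
      (∀ i, Anc (cutf p (Set.range e)) (z i) (e i)) ∧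
      (∀ S : Finset ι, S.Nonempty → ∃ l,
        ¬ ((∃ j ∈ S, κ (e l) = some j) ↔ (∃ j ∈ S, κ (p (e l)) = some j))) := by
  classical
  obtain ⟨N, hN⟩ := hp.dp
  obtain ⟨l, -, hl1, hl2⟩ := hN.lev
  have hit := lev_iter hl1 hl2
  set A : Matrix ι V ℚ := fun i v => if Anc p (z i) v then (l v : ℚ) else 0 with hA
  set B : Matrix V ι ℚ := fun v j => (if κ v = some j then 1 else 0) -
    (if κ (p v) = some j then 1 else 0) with hB
  have hAsum : ∀ i v, A i v = ∑ t ∈ range (l (z i)), if p^[t] (z i) = v then (l v : ℚ) else 0 := by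
    intro i v
    rw [hA]
    simp only
    split_ifs with h
    · obtain ⟨m, hm⟩ := h
      by_cases h0 : l v = 0
      · rw [h0]; simp
      · have h1 := hit (z i) m
        rw [hm] at h1
        rw [sum_eq_single m]
        · rw [if_pos hm]
        · intro t ht htm
          rw [mem_range] at ht
          rw [if_neg]
          intro h2
          have h3 := hit (z i) t
          rw [h2] at h3
          omega
        · intro h2
          rw [mem_range] at h2
          omega
    · symm
      refine sum_eq_zero fun t _ => ?_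
      rw [if_neg]
      exact fun h1 => h ⟨t, h1⟩
  have hBu : ∀ (u : ι → ℚ) (v : V), (B *ᵥ u) v = (κ v).elim 0 u - (κ (p v)).elim 0 u := by
    intro u v
    rw [mulVec, dotProduct, hB]
    simp only [sub_mul]
    rw [sum_sub_distrib, elim_sum, elim_sum]
  have hdet : (A * B).det ≠ 0 := by
    intro h0
    obtain ⟨u, hu0, hu⟩ := exists_mulVec_eq_zero_iff.2 h0
    have hQ : ∀ i, ∑ t ∈ range (l (z i)), (u i - (κ (p^[t + 1] (z i))).elim 0 u) = 0 := by
      intro i
      have h1 := congrFun hu i
      rw [← mulVec_mulVec, mulVec, dotProduct, Pi.zero_apply] at h1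
      have h2 : ∑ v, A i v * (B *ᵥ u) v = ∑ t ∈ range (l (z i)),
          ((l (z i) : ℚ) - t) * ((κ (p^[t] (z i))).elim 0 u - (κ (p^[t + 1] (z i))).elim 0 u) := by
        simp only [hAsum, sum_mul]
        rw [Finset.sum_comm]
        refine sum_congr rfl fun t ht => ?_
        rw [mem_range] at ht
        rw [sum_eq_single (p^[t] (z i))]
        · rw [if_pos rfl, hBu, hit, Nat.cast_sub ht.le, Function.iterate_succ_apply']
        · intro v _ hv
          rw [if_neg (fun h => hv h.symm), zero_mul]
        · intro h; exact absurd (mem_univ _) h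
      rw [h2, abel (fun t => (κ (p^[t] (z i))).elim 0 u)] at h1
      have h3 : (κ (p^[0] (z i))).elim 0 u = u i := by simp [hκ]
      simpa only [h3] using h1
    by_cases hpos : ∃ i, 0 < u i
    · exact maxp hl1 hl2 hκ hstar u hQ hpos
    · push Not at hpos
      have hne : ∃ i, u i ≠ 0 := by
        by_contra hc
        push Not at hc
        exact hu0 (funext hc)
      obtain ⟨i, hi⟩ := hne
      refine maxp hl1 hl2 hκ hstar (-u) ?_ ⟨i, ?_⟩
      · intro i
        have h1 := hQ i
        have h2 : ∀ o : Option ι, o.elim 0 (-u) = - o.elim 0 u := by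
          intro o
          cases o with
          | none => simp
          | some j => rfl
        have h3 : ∑ t ∈ range (l (z i)), ((-u) i - (κ (p^[t + 1] (z i))).elim 0 (-u)) =
            - ∑ t ∈ range (l (z i)), (u i - (κ (p^[t + 1] (z i))).elim 0 u) := by
          rw [← sum_neg_distrib]
          refine sum_congr rfl fun t _ => ?_
          rw [h2, Pi.neg_apply]
          ring
        rw [h3, h1, neg_zero]
      · have := lt_of_le_of_ne (hpos i) hi
        rw [Pi.neg_apply]
        linarith
  obtain ⟨r, hr1, hr2⟩ := exists_minor A B hdet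
  have hinj : Function.Injective r := by
    intro a b hab
    by_contra hne
    refine hr1 (det_zero_of_column_eq hne fun k => ?_)
    rw [submatrix_apply, submatrix_apply, hab]
  have hroot : ∀ a, p (r a) ≠ r a := by
    intro a ha
    refine hr1 (det_eq_zero_of_column_eq_zero a fun k => ?_)
    rw [submatrix_apply, hA]
    simp only
    rw [hl2 _ ha]
    simp
  have hrow : ∀ i, ∃ t, p^[t] (z i) ∈ Set.range r := by
    intro i
    by_contra hn
    push Not at hn
    refine hr1 (det_eq_zero_of_row_eq_zero i fun a => ?_)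
    rw [submatrix_apply, hA]
    simp only
    rw [if_neg]
    rintro ⟨t, ht⟩
    exact hn t ⟨a, ht.symm⟩
  have hspec : ∀ i, p^[Nat.find (hrow i)] (z i) ∈ Set.range r := fun i => Nat.find_spec (hrow i)
  choose k hk using hspec
  have hanc : ∀ i a, Anc p (z i) (r a) ↔ Anc p (r (k i)) (r a) := by
    intro i a
    constructor
    · rintro ⟨t, ht⟩
      have h1 : Nat.find (hrow i) ≤ t := Nat.find_min' (hrow i) ⟨a, ht.symm⟩
      refine ⟨t - Nat.find (hrow i), ?_⟩
      rw [hk, ← Function.iterate_add_apply, Nat.sub_add_cancel h1, ht]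
    · intro h
      refine Anc.trans ⟨Nat.find (hrow i), (hk i).symm⟩ h
  have hkinj : Function.Injective k := by
    intro i j hij
    by_contra hne
    refine hr1 (det_zero_of_row_eq hne ?_)
    funext a
    rw [submatrix_apply, submatrix_apply, hA]
    simp only [id]
    have h1 : Anc p (z i) (r a) ↔ Anc p (z j) (r a) := by
      rw [hanc, hanc, hij]
    simp only [h1]
  have hkbij : Function.Bijective k := Finite.injective_iff_bijective.1 hkinj
  have hrange : Set.range (fun i => r (k i)) = Set.range r := by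
    ext v
    constructor
    · rintro ⟨i, rfl⟩; exact ⟨_, rfl⟩
    · rintro ⟨a, rfl⟩
      obtain ⟨i, rfl⟩ := hkbij.2 a
      exact ⟨i, rfl⟩
  refine ⟨fun i => r (k i), fun a b hab => hkinj (hinj hab), fun i => hroot _, ?_, ?_⟩
  · intro i
    rw [hrange]
    refine ⟨Nat.find (hrow i), ?_⟩
    have h1 : ∀ t, t ≤ Nat.find (hrow i) → (cutf p (Set.range r))^[t] (z i) = p^[t] (z i) := by
      intro t
      induction t with
      | zero => intro _; rfl
      | succ t ih =>
        intro ht
        rw [Function.iterate_succ_apply', Function.iterate_succ_apply', ih (by omega)]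
        unfold cutf
        rw [if_neg]
        exact Nat.find_min (hrow i) (by omega)
    rw [h1 _ le_rfl]
    exact (hk i).symm
  · intro S hS
    by_contra hn
    push Not at hn
    refine hr2 (exists_mulVec_eq_zero_iff.1 ⟨fun j => if j ∈ S then 1 else 0, ?_, ?_⟩)
    · obtain ⟨j, hj⟩ := hS
      intro h
      have := congrFun h j
      simp [hj] at this
    · funext a
      obtain ⟨i, rfl⟩ := hkbij.2 a
      have h1 : (B.submatrix r id *ᵥ fun j => if j ∈ S then (1 : ℚ) else 0) (k i) =
          (B *ᵥ fun j => if j ∈ S then (1 : ℚ) else 0) (r (k i)) := rfl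
      rw [h1, hBu, elim_mem, elim_mem, Pi.zero_apply]
      have h2 := hn i
      simp only [h2]
      simp

end

end Pool.Agent.L7h33.LE90
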