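import Pool.Agent.L7h33.BD.Sel
import Pool.Agent.L7h33.BD.LE90

/-! # The exchange -/

set_option autoImplicit false

namespace Pool.Agent.L7h33.BD

open SimpleGraph Finset

/-- A region rooted at `a`. -/
structure Rtd {X : Type} (B : SimpleGraph X) (R : Set X) (a : X) (q : X → X) (l : X → ℕ) :
    Prop where
  lv : Lv q l
  mem : a ∈ R
  qa : q a = a
  out : ∀ v, v ∉ R → q v = v
  mov : ∀ v, v ∈ R → v ≠ a → q v ≠ v
  adj : ∀ v, q v ≠ v → q v ∈ R ∧ B.Adj v (q v)
  nb : ∀ u v, u ∈ R → v ∈ R → B.Adj u v → q u = v ∨ q v = u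
  anc : ∀ v, v ∈ R → Anc q v a

section

variable {X : Type} {B : SimpleGraph X} {R : Set X} {a : X} {q : X → X} {l : X → ℕ}

theorem Rtd.q_mem (h : Rtd B R a q l) {v : X} (hv : v ∈ R) : q v ∈ R := by
  by_cases h1 : q v = v
  · rw [h1]
    exact hv
  · exact (h.adj v h1).1

theorem Rtd.anc_mem (h : Rtd B R a q l) {v w : X} (hv : v ∈ R) (hw : Anc q v w) : w ∈ R := by
  obtain ⟨n, rfl⟩ := hw
  induction n with
  | zero => exact hv
  | succ n ih =>
    rw [Function.iterate_succ_apply']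
    exact h.q_mem ih

theorem exists_nx (h : Lv q l) (f : X) : ∃ nx : X → X, ∀ z, Anc q f z → z ≠ f →
    q (nx z) = z ∧ Anc q f (nx z) ∧ l (nx z) = l z + 1 := by
  refine ⟨fun z => q^[l f - l z - 1] f, fun z hz hne => ?_⟩
  have h1 : l z ≤ l f := h.anc_le hz
  have h2 : l z ≠ l f := fun h3 => hne (h.anc_eq hz h3.ge).symm
  have h3 : q^[l f - l z] f = z := by
    refine h.anc_unique ⟨_, rfl⟩ hz ?_
    rw [h.iter f _ (by omega)]
    omega
  refine ⟨?_, ⟨_, rfl⟩, ?_⟩
  · rw [← Function.iterate_succ_apply' q, ← h3]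
    congr 1
    have : l (q^[l f - l z] f) = l z := by rw [h3]
    omega
  · rw [h.iter f _ (by omega)]
    omega

end

/-- The exchanged graph is a tree. -/
theorem exch1 {X : Type} [Fintype X] {B : SimpleGraph X} (hB : B.IsTree) {R : Set X} {a : X}
    {q : X → X} {l : X → ℕ} (h : Rtd B R a q l) (f : X) (hf : f ∈ R) (nx : X → X)
    (hnx : ∀ z, Anc q f z → z ≠ f → q (nx z) = z ∧ Anc q f (nx z) ∧ l (nx z) = l z + 1)
    (e g : {z : X // Anc q f z ∧ z ≠ f} → X) (heR : ∀ i, e i ∈ R) (hgR : ∀ i, g i ∈ R)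
    (hne : ∀ i, e i ≠ g i)
    (hcl : ∀ S : Finset {z : X // Anc q f z ∧ z ≠ f}, S.Nonempty →
      ∃ i, ¬ ((∃ j ∈ S, mt q (e i) f = j.1) ↔ (∃ j ∈ S, mt q (g i) f = j.1))) :
    (SimpleGraph.fromEdgeSet ((B.edgeSet \
      Set.range (fun z : {z : X // Anc q f z ∧ z ≠ f} => s(z.1, nx z.1))) ∪
      Set.range (fun i => s(e i, g i)))).IsTree := by
  classical
  set PE : Set (Sym2 X) := Set.range (fun z : {z : X // Anc q f z ∧ z ≠ f} => s(z.1, nx z.1))
    with hPE
  set EE : Set (Sym2 X) := Set.range (fun i => s(e i, g i)) with hEE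
  set B' := SimpleGraph.fromEdgeSet ((B.edgeSet \ PE) ∪ EE) with hB'
  have adj' : ∀ u v, B'.Adj u v ↔ ((B.Adj u v ∧ s(u, v) ∉ PE) ∨ s(u, v) ∈ EE) ∧ u ≠ v := by
    intro u v
    rw [hB', SimpleGraph.fromEdgeSet_adj]
    simp only [Set.mem_union, Set.mem_sdiff, SimpleGraph.mem_edgeSet]
  -- going up to the path
  have hup : ∀ k v, v ∈ R → l v ≤ k → B'.Reachable v (mt q v f) := by
    intro k
    induction k with
    | zero =>
      intro v hv hk
      have h1 : v = a := by
        by_contra hne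
        have := h.lv.suc v (h.mov v hv hne)
        omega
      have h2 : IsMt q v f v := by
        rw [h1]
        exact ⟨Anc.refl _ _, h.anc f hf, fun m' h3 _ => h3⟩
      rw [mt_eq h.lv h2]
    | succ k ih =>
      intro v hv hk
      by_cases hvf : Anc q f v
      · have h2 : IsMt q v f v := ⟨Anc.refl _ _, hvf, fun m' h3 _ => h3⟩
        rw [mt_eq h.lv h2]
      · have hva : v ≠ a := fun h3 => hvf (h3 ▸ h.anc f hf)
        have hqv := h.mov v hv hva
        have h3 := h.adj v hqv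
        have h4 := ih (q v) h3.1 (by
          have := h.lv.suc v hqv
          omega)
        have h5 : IsMt q v f (mt q (q v) f) := by
          have h6 : IsMt q (q v) f (mt q (q v) f) := mt_spec h.lv (h.anc _ h3.1) (h.anc f hf)
          refine ⟨Anc.of_step h6.1, h6.2.1, fun m' h7 h8 => ?_⟩
          rcases h7.eq_or with h9 | h9
          · exact absurd (h9 ▸ h8) hvf
          · exact h6.2.2 m' h9 h8
        rw [mt_eq h.lv h5]
        refine Reachable.trans (Adj.reachable ?_) h4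
        rw [adj']
        refine ⟨Or.inl ⟨h3.2, ?_⟩, hqv.symm⟩
        rintro ⟨⟨z, hz1, hz2⟩, hz⟩
        simp only [Sym2.eq_iff] at hz
        rcases hz with ⟨h6, -⟩ | ⟨-, h6⟩
        · exact hvf (h6 ▸ hz1)
        · exact hvf (h6 ▸ (hnx z hz1 hz2).2.1)
  have hup' : ∀ v, v ∈ R → B'.Reachable v (mt q v f) := fun v hv => hup _ v hv le_rfl
  have hmt : ∀ v, v ∈ R → IsMt q v f (mt q v f) := fun v hv =>
    mt_spec h.lv (h.anc v hv) (h.anc f hf)
  -- everything on the path reaches `f`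
  have hall : ∀ z : {z : X // Anc q f z ∧ z ≠ f}, B'.Reachable z.1 f := by
    by_contra hcon
    push Not at hcon
    obtain ⟨z0, hz0⟩ := hcon
    let S : Finset {z : X // Anc q f z ∧ z ≠ f} :=
      Finset.univ.filter fun z => ¬ B'.Reachable z.1 f
    obtain ⟨i, hi⟩ := hcl S ⟨z0, by simp [S, hz0]⟩
    have hkey : ∀ v, v ∈ R → ((∃ j ∈ S, mt q v f = j.1) ↔ ¬ B'.Reachable v f) := by
      intro v hv
      constructor
      · rintro ⟨j, hj, hj'⟩ h1
        have h2 : ¬ B'.Reachable j.1 f := by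
          simpa [S] using hj
        refine h2 ?_
        rw [← hj']
        exact (hup' v hv).symm.trans h1
      · intro h1
        have h2 : mt q v f ≠ f := fun h3 => h1 (h3 ▸ hup' v hv)
        refine ⟨⟨mt q v f, (hmt v hv).2.1, h2⟩, ?_, rfl⟩
        simp only [S, Finset.mem_filter, Finset.mem_univ, true_and]
        exact fun h3 => h1 ((hup' v hv).trans h3)
    apply hi
    rw [hkey _ (heR i), hkey _ (hgR i)]
    have h1 : B'.Adj (e i) (g i) := by
      rw [adj']
      exact ⟨Or.inr ⟨i, rfl⟩, hne i⟩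
    exact not_congr ⟨fun h2 => h1.reachable.symm.trans h2, fun h2 => h1.reachable.trans h2⟩
  have hallR : ∀ v, v ∈ R → B'.Reachable v f := by
    intro v hv
    by_cases h1 : mt q v f = f
    · have := hup' v hv
      rwa [h1] at this
    · exact (hup' v hv).trans (hall ⟨mt q v f, (hmt v hv).2.1, h1⟩)
  have hBadj : ∀ u v, B.Adj u v → B'.Reachable u v := by
    intro u v huv
    by_cases h1 : s(u, v) ∈ PE
    · obtain ⟨⟨z, hz1, hz2⟩, hz⟩ := h1
      have h2 : z ∈ R := h.anc_mem hf hz1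
      have h3 : nx z ∈ R := h.anc_mem hf (hnx z hz1 hz2).2.1
      simp only [Sym2.eq_iff] at hz
      rcases hz with ⟨rfl, rfl⟩ | ⟨rfl, rfl⟩
      · exact (hallR _ h2).trans (hallR _ h3).symm
      · exact (hallR _ h3).trans (hallR _ h2).symm
    · exact Adj.reachable ((adj' u v).2 ⟨Or.inl ⟨huv, h1⟩, huv.ne⟩)
  have hconn : B'.Connected := by
    have : Nonempty X := ⟨f⟩
    refine ⟨fun u v => ?_⟩
    obtain ⟨w⟩ := hB.connected.preconnected u v
    induction w with
    | nil => exact Reachable.refl _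
    | cons hxy _ ih => exact (hBadj _ _ hxy).trans ih
  rw [isTree_iff_connected_and_card]
  refine ⟨hconn, le_antisymm ?_ hconn.card_vert_le_card_edgeSet_add_one⟩
  have hcB := (isTree_iff_connected_and_card.1 hB).2
  rw [← hcB]
  have h1 : Nat.card B'.edgeSet ≤ (B.edgeSet \ PE).ncard + EE.ncard := by
    rw [Nat.card_coe_set_eq]
    refine le_trans (Set.ncard_le_ncard (t := (B.edgeSet \ PE) ∪ EE) ?_ (Set.toFinite _))
      (Set.ncard_union_le _ _)
    rw [hB', SimpleGraph.edgeSet_fromEdgeSet]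
    exact Set.sdiff_subset
  have hPEB : PE ⊆ B.edgeSet := by
    rintro _ ⟨⟨z, hz1, hz2⟩, rfl⟩
    have h2 := hnx z hz1 hz2
    have h3 : q (nx z) ≠ nx z := by
      intro h4
      have := h2.2.2
      rw [h2.1] at h4
      rw [← h4] at this
      omega
    have h4 := (h.adj _ h3).2
    rw [h2.1] at h4
    exact h4.symm
  have h2 : (B.edgeSet \ PE).ncard + PE.ncard = B.edgeSet.ncard :=
    Set.ncard_sdiff_add_ncard_of_subset hPEB (Set.toFinite _)
  have h3 : PE.ncard = Nat.card {z : X // Anc q f z ∧ z ≠ f} := by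
    have hinj : Function.Injective
        (fun z : {z : X // Anc q f z ∧ z ≠ f} => s(z.1, nx z.1)) := by
      rintro ⟨z, hz1, hz2⟩ ⟨z', hz1', hz2'⟩ heq
      simp only [Sym2.eq_iff] at heq
      rcases heq with ⟨h4, -⟩ | ⟨h4, h5⟩
      · exact Subtype.ext h4
      · exfalso
        have h6 := (hnx z hz1 hz2).2.2
        have h7 := (hnx z' hz1' hz2').2.2
        rw [h5] at h6
        rw [← h4] at h7
        omega
    rw [hPE, ← Set.image_univ, Set.ncard_image_of_injective _ hinj, Set.ncard_univ]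
  have h4 : EE.ncard ≤ Nat.card {z : X // Anc q f z ∧ z ≠ f} := by
    rw [hEE, ← Set.image_univ]
    refine (Set.ncard_image_le (Set.toFinite _)).trans ?_
    rw [Set.ncard_univ]
  have h5 : Nat.card B.edgeSet = B.edgeSet.ncard := Nat.card_coe_set_eq _
  omega

end Pool.Agent.L7h33.BD
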