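import Pool.Agent.L7h33.BD.Exch

/-! # The exchange: the new function -/

set_option autoImplicit false

namespace Pool.Agent.L7h33.BD

open SimpleGraph Finset

theorem reach_tg {X : Type} {f : X → X} {u v : X} (h : Anc f u v) : (tg f).Reachable u v := by
  obtain ⟨n, rfl⟩ := h
  induction n with
  | zero => exact Reachable.refl _
  | succ n ih =>
    rw [Function.iterate_succ_apply']
    refine ih.trans ?_
    by_cases h1 : f^[n] u = f (f^[n] u)
    · rw [← h1]
    · exact Adj.reachable ((tg_adj _ _ _).2 ⟨h1, Or.inl rfl⟩)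

/-- Rerooting the pieces of `pR` cut at the range of `e`. -/
theorem reroot {X ι : Type} [Fintype X] {pR : X → X} (hacy : Acy pR) (z e : ι → X)
    (he : Function.Injective e) (hpe : ∀ i, pR (e i) ≠ e i)
    (hz : ∀ i, Anc (cutf pR (Set.range e)) (z i) (e i)) :
    ∃ (q₁ : X → X) (lev : X → ℕ) (r : X → X), (∀ i, r (z i) = z i) ∧ (∀ t, pR t = t → r t = t) ∧
      (∀ v, (∃ i, r v = z i) ∨ pR (r v) = r v) ∧
      (∀ v, r v = v → lev v = 0) ∧
      (∀ v, r v ≠ v → q₁ v ≠ v ∧ lev v = lev (q₁ v) + 1 ∧ r (q₁ v) = r v ∧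
        (pR v = q₁ v ∨ pR (q₁ v) = v)) ∧
      (∀ v, pR v ≠ v → (∀ i, v ≠ e i) → (r v ≠ v ∧ q₁ v = pR v) ∨
        (r (pR v) ≠ pR v ∧ q₁ (pR v) = v)) := by
  classical
  set c := cutf pR (Set.range e) with hc
  have hce : ∀ i, c (e i) = e i := fun i => if_pos ⟨i, rfl⟩
  have hcn : ∀ v, (∀ i, v ≠ e i) → c v = pR v := fun v hv =>
    if_neg (by rintro ⟨i, hi⟩; exact hv i hi.symm)
  have hcor : ∀ v, c v = v ∨ c v = pR v := by
    intro v
    by_cases h : ∃ i, v = e i
    · obtain ⟨i, rfl⟩ := h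
      exact Or.inl (hce i)
    · push Not at h
      exact Or.inr (hcn v h)
  have hcacy : Acy c := hacy.mono hcor
  choose ρ hρ1 hρ2 using hcacy.exists_root
  have hρu : ∀ v w, Anc c v w → c w = w → ρ v = w := fun v w h1 h2 =>
    root_unique (hρ1 v) (hρ2 v) h1 h2
  let r : X → X := fun v => if h : ∃ i, ρ v = e i then z h.choose else ρ v
  have hre : ∀ v i, ρ v = e i → r v = z i := by
    intro v i h
    have h1 : ∃ i, ρ v = e i := ⟨i, h⟩
    show (if h : ∃ i, ρ v = e i then z h.choose else ρ v) = z i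
    rw [dif_pos h1]
    congr 1
    exact he (h1.choose_spec.symm.trans h)
  have hrn : ∀ v, (¬ ∃ i, ρ v = e i) → r v = ρ v := by
    intro v h
    exact dif_neg h
  have hrz : ∀ i, r (z i) = z i := fun i => hre _ i (hρu _ _ (hz i) (hce i))
  have hrt : ∀ t, pR t = t → r t = t := by
    intro t ht
    have h1 : c t = t := by
      rcases hcor t with h | h
      · exact h
      · rw [h, ht]
    have h2 : ρ t = t := hρu t t (Anc.refl _ _) h1
    rw [hrn, h2]
    rintro ⟨i, hi⟩
    rw [h2] at hi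
    rw [hi] at ht
    exact hpe i ht
  have hror : ∀ v, (∃ i, r v = z i) ∨ pR (r v) = r v := by
    intro v
    by_cases h : ∃ i, ρ v = e i
    · obtain ⟨i, hi⟩ := h
      exact Or.inl ⟨i, hre v i hi⟩
    · right
      rw [hrn v h]
      push Not at h
      have h1 := hcn (ρ v) h
      rw [← h1]
      exact hρ2 v
  have hreach : ∀ v, (tg c).Reachable v (r v) := by
    intro v
    by_cases h : ∃ i, ρ v = e i
    · obtain ⟨i, hi⟩ := h
      rw [hre v i hi]
      have h1 := reach_tg (hρ1 v)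
      rw [hi] at h1
      exact h1.trans (reach_tg (hz i)).symm
    · rw [hrn v h]
      exact reach_tg (hρ1 v)
  have hadjρ : ∀ u v, (tg c).Adj u v → ρ u = ρ v := by
    intro u v huv
    rw [tg_adj] at huv
    obtain ⟨-, h | h⟩ := huv
    · exact hρu u _ (Anc.of_step (h ▸ hρ1 v)) (hρ2 v)
    · exact (hρu v _ (Anc.of_step (h ▸ hρ1 u)) (hρ2 u)).symm
  have hrρ : ∀ u v, ρ u = ρ v → r u = r v := by
    intro u v h
    by_cases h1 : ∃ i, ρ u = e i
    · obtain ⟨i, hi⟩ := h1
      rw [hre u i hi, hre v i (h ▸ hi)]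
    · rw [hrn u h1, hrn v (by rwa [← h]), h]
  have hadjr : ∀ u v, (tg c).Adj u v → r u = r v := fun u v h => hrρ u v (hadjρ u v h)
  have hreachr : ∀ u v, (tg c).Reachable u v → r u = r v := by
    rintro u v ⟨w⟩
    induction w with
    | nil => rfl
    | cons h _ ih => exact (hadjr _ _ h).trans ih
  obtain ⟨p₁, lev, h1, h2, h3, h4⟩ := Pool.Agent.TH87.BD.exists_rooting_at (tg c)
    (tg_acyclic hcacy) r hreach hreachr
  have hnone : ∀ v, r v = v → p₁ v = none := by
    intro v hv
    rcases hp : p₁ v with _ | w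
    · rfl
    · have h5 := (h1 v w hp).2
      have h6 := h4 v
      rw [hv, SimpleGraph.dist_self] at h6
      omega
  have hsome : ∀ v, r v ≠ v → ∃ w, p₁ v = some w := by
    intro v hv
    rcases hp : p₁ v with _ | w
    · exfalso
      have h5 := h2 v hp
      have h6 := h4 v
      rw [h5] at h6
      exact hv (((hreach v).dist_eq_zero_iff).1 h6.symm).symm
    · exact ⟨w, rfl⟩
  have hctg : ∀ u v, (tg c).Adj u v → pR u = v ∨ pR v = u := by
    intro u v huv
    rw [tg_adj] at huv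
    obtain ⟨hne, h | h⟩ := huv
    · rcases hcor u with h5 | h5
      · exact absurd (h5.symm.trans h) hne
      · exact Or.inl (h5 ▸ h)
    · rcases hcor v with h5 | h5
      · exact absurd (h.symm.trans h5) hne
      · exact Or.inr (h5 ▸ h)
  have hgd : ∀ v w, p₁ v = some w → (p₁ v).getD v = w := fun v w h => by rw [h]; rfl
  refine ⟨fun v => (p₁ v).getD v, lev, r, hrz, hrt, hror, fun v hv => h2 v (hnone v hv),
    fun v hv => ?_, fun v hv hve => ?_⟩
  · obtain ⟨w, hw⟩ := hsome v hv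
    have h5 := h1 v w hw
    show (p₁ v).getD v ≠ v ∧ lev v = lev ((p₁ v).getD v) + 1 ∧ r ((p₁ v).getD v) = r v ∧
        (pR v = (p₁ v).getD v ∨ pR ((p₁ v).getD v) = v)
    rw [hgd v w hw]
    exact ⟨h5.1.ne', h5.2, (hadjr _ _ h5.1).symm, hctg _ _ h5.1⟩
  · show (r v ≠ v ∧ (p₁ v).getD v = pR v) ∨
        (r (pR v) ≠ pR v ∧ (p₁ (pR v)).getD (pR v) = v)
    have hadj : (tg c).Adj v (pR v) := by
      rw [tg_adj]
      exact ⟨hv.symm, Or.inl (hcn v hve)⟩
    rcases h3 v (pR v) hadj with h5 | h5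
    · left
      refine ⟨fun h6 => ?_, hgd _ _ h5⟩
      rw [hnone v h6] at h5
      exact absurd h5 (by simp)
    · right
      refine ⟨fun h6 => ?_, hgd _ _ h5⟩
      rw [hnone _ h6] at h5
      exact absurd h5 (by simp)

/-- The exchange. -/
theorem exch {X : Type} [Fintype X] {B : SimpleGraph X} (hB : B.IsTree) {R : Set X} {a : X}
    {q : X → X} {l : X → ℕ} (h : Rtd B R a q l) (p : X → X) (hacy : Acy (rsf p R))
    (hpa : rsf p R a ≠ a) :
    ∃ (f : X) (C : Finset X) (B' : SimpleGraph X) (p' : X → X), f ∈ R ∧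
      (∀ v ∈ C, v ∈ R) ∧ C.card ≤ 3 * (l f + 1) ∧ B'.IsTree ∧
      (∀ u v, u ∉ C → (B'.Adj u v ↔ B.Adj u v)) ∧
      (∀ u v, B'.Adj u v → B.Adj u v ∨ (u ∈ R ∧ v ∈ R)) ∧
      (∀ u v, u ≠ v → ((B'.Adj u v ∨ p' u = v ∨ p' v = u) ↔ (B.Adj u v ∨ p u = v ∨ p v = u))) ∧
      (∀ v, p' v = v ↔ p v = v) ∧ (∀ v, v ∉ R → p' v = p v) ∧ Acy (rsf p' R) ∧
      (∀ T : Set X, T ⊆ R → a ∈ T → ¬ ∀ u ∈ T, u ∈ C → p' u ≠ u ∧ p' u ∈ T) := by
  classical
  set pR := rsf p R with hpR
  obtain ⟨f, hfR, hff, hfw, hsel⟩ := sel h.lv R a h.mem (fun v hv => h.anc v hv)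
    (fun v hv => h.q_mem hv) (fun v hv => (rsf_mem hv : pR v ∈ R)) hacy
  have hfa : a ≠ f := fun h1 => hpa (h1 ▸ hff)
  obtain ⟨nx, hnx⟩ := exists_nx h.lv f
  let ι := {z : X // Anc q f z ∧ z ≠ f}
  have hmt : ∀ v, v ∈ R → IsMt q v f (mt q v f) := fun v hv =>
    mt_spec h.lv (h.anc v hv) (h.anc f hfR)
  let κ : X → Option ι := fun v =>
    if hv : v ∈ R ∧ mt q v f ≠ f then some ⟨mt q v f, (hmt v hv.1).2.1, hv.2⟩ else none
  have hκ1 : ∀ v (j : ι), v ∈ R → (κ v = some j ↔ mt q v f = j.1) := by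
    intro v j hv
    by_cases h1 : mt q v f ≠ f
    · have h2 : κ v = some ⟨mt q v f, (hmt v hv).2.1, h1⟩ := dif_pos ⟨hv, h1⟩
      rw [h2, Option.some.injEq]
      constructor
      · intro h3
        rw [← h3]
      · intro h3
        exact Subtype.ext h3
    · have h2 : κ v = none := dif_neg (by tauto)
      rw [h2]
      constructor
      · intro h3
        exact absurd h3 (by simp)
      · intro h3
        exfalso
        apply h1
        rw [h3]
        exact j.2.2
  have hzR : ∀ i : ι, i.1 ∈ R := fun i => h.anc_mem hfR i.2.1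
  obtain ⟨e, he, hpe, hze, hcl⟩ := Pool.Agent.L7h33.LE90.LE (V := X) (ι := ι) pR hacy κ
    (fun i => i.1) (fun i => by
      rw [hκ1 _ _ (hzR i)]
      exact mt_eq h.lv ⟨Anc.refl _ _, i.2.1, fun m' h1 _ => h1⟩) (by
      intro Y hY
      obtain ⟨z, hz, t, ht⟩ := hsel (Y.image Subtype.val) (hY.image _) (by
        intro z hz
        obtain ⟨i, -, rfl⟩ := Finset.mem_image.1 hz
        exact i.2)
      obtain ⟨i, hi, rfl⟩ := Finset.mem_image.1 hz
      refine ⟨i, hi, t, fun j hj hκ => ht ?_⟩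
      rw [hκ1 _ _ (rsf_mem_iter (hzR i) t)] at hκ
      rw [hκ]
      exact Finset.mem_image_of_mem _ hj)
  have heR : ∀ i, e i ∈ R ∧ pR (e i) ∈ R ∧ pR (e i) = p (e i) := fun i =>
    let h1 := rsf_ne (hpe i)
    ⟨h1.1, rsf_mem h1.1, h1.2.2⟩
  have htree := exch1 hB h f hfR nx hnx e (fun i => pR (e i)) (fun i => (heR i).1)
    (fun i => (heR i).2.1) (fun i => (hpe i).symm) (by
      intro S hS
      obtain ⟨i, hi⟩ := hcl S hS
      refine ⟨i, fun h1 => hi ?_⟩
      have h2 : ∀ v, v ∈ R → ((∃ j ∈ S, κ v = some j) ↔ ∃ j ∈ S, mt q v f = j.1) := by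
        intro v hv
        refine exists_congr fun j => and_congr_right fun _ => hκ1 v j hv
      rw [h2 _ (heR i).1, h2 _ (heR i).2.1]
      exact h1)
  set PE : Set (Sym2 X) := Set.range (fun z : {z : X // Anc q f z ∧ z ≠ f} => s(z.1, nx z.1))
    with hPE
  set EE : Set (Sym2 X) := Set.range (fun i => s(e i, pR (e i))) with hEE
  set B' := SimpleGraph.fromEdgeSet ((B.edgeSet \ PE) ∪ EE) with hB'
  have adj' : ∀ u v, B'.Adj u v ↔ ((B.Adj u v ∧ s(u, v) ∉ PE) ∨ s(u, v) ∈ EE) ∧ u ≠ v := by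
    intro u v
    rw [hB', SimpleGraph.fromEdgeSet_adj]
    simp only [Set.mem_union, Set.mem_sdiff, SimpleGraph.mem_edgeSet]
  obtain ⟨q₁, lev, r, hr1, hr2, hr3, hr4, hr5, hr6⟩ := reroot hacy (fun i : ι => i.1) e he hpe hze
  have hztop : ∀ z, Anc q f z → z ≠ f → pR z ≠ z := hfw
  -- the new function
  let p' : X → X := fun v => if pR v = v then p v else if Anc q f v ∧ v ≠ f then nx v else q₁ v
  have hp1 : ∀ v, pR v = v → p' v = p v := fun v hv => if_pos hv
  have hp2 : ∀ v, Anc q f v → v ≠ f → p' v = nx v := by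
    intro v h1 h2
    show (if pR v = v then p v else if Anc q f v ∧ v ≠ f then nx v else q₁ v) = nx v
    rw [if_neg (hztop v h1 h2), if_pos ⟨h1, h2⟩]
  have hp3 : ∀ v, pR v ≠ v → ¬ (Anc q f v ∧ v ≠ f) → p' v = q₁ v := by
    intro v h1 h2
    show (if pR v = v then p v else if Anc q f v ∧ v ≠ f then nx v else q₁ v) = q₁ v
    rw [if_neg h1, if_neg h2]
  have hr7 : ∀ v, pR v ≠ v → ¬ (Anc q f v ∧ v ≠ f) → r v ≠ v := by
    intro v h1 h2 h3
    rcases hr3 v with ⟨i, hi⟩ | h4
    · rw [h3] at hi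
      exact h2 (hi ▸ i.2)
    · rw [h3] at h4
      exact h1 h4
  have hnxne : ∀ z, Anc q f z → z ≠ f → nx z ≠ z := by
    intro z h1 h2 h3
    have := (hnx z h1 h2).2.2
    rw [h3] at this
    omega
  have hrne : ∀ v, r v ≠ v → pR v ≠ v ∧ ¬ (Anc q f v ∧ v ≠ f) := by
    intro v hv
    exact ⟨fun h1 => hv (hr2 v h1), fun h1 => hv (hr1 ⟨v, h1⟩)⟩
  have hPEmem : ∀ u v, s(u, v) ∈ PE → (Anc q f u ∧ u ≠ f ∧ v = nx u) ∨
      (Anc q f v ∧ v ≠ f ∧ u = nx v) := by
    rintro u v ⟨⟨z, hz1, hz2⟩, hz⟩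
    simp only [Sym2.eq_iff] at hz
    rcases hz with ⟨rfl, rfl⟩ | ⟨rfl, rfl⟩
    · exact Or.inl ⟨hz1, hz2, rfl⟩
    · exact Or.inr ⟨hz1, hz2, rfl⟩
  have hEEmem : ∀ u v, s(u, v) ∈ EE → ∃ i, (u = e i ∧ v = pR (e i)) ∨ (v = e i ∧ u = pR (e i)) := by
    rintro u v ⟨i, hi⟩
    simp only [Sym2.eq_iff] at hi
    refine ⟨i, ?_⟩
    rcases hi with ⟨h1, h2⟩ | ⟨h1, h2⟩
    · exact Or.inl ⟨h1.symm, h2.symm⟩
    · exact Or.inr ⟨h1.symm, h2.symm⟩
  let C : Finset X := (Finset.univ.filter fun v => Anc q f v) ∪ Finset.univ.image e ∪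
    Finset.univ.image fun i => pR (e i)
  have hC1 : ∀ v, Anc q f v → v ∈ C := fun v hv => by simp [C, hv]
  have hC2 : ∀ i, e i ∈ C := fun i => by simp [C]
  have hC3 : ∀ i, pR (e i) ∈ C := fun i => by simp [C]
  have hadjB' : ∀ u v, B'.Adj u v → B.Adj u v ∨ p u = v ∨ p v = u := by
    intro u v huv
    rw [adj'] at huv
    obtain ⟨⟨h1, -⟩ | h1, -⟩ := huv
    · exact Or.inl h1
    · obtain ⟨i, ⟨rfl, rfl⟩ | ⟨rfl, rfl⟩⟩ := hEEmem u v h1
      · exact Or.inr (Or.inl (heR i).2.2.symm)
      · exact Or.inr (Or.inr (heR i).2.2.symm)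
  have hnxadj : ∀ z, Anc q f z → z ≠ f → B.Adj z (nx z) := by
    intro z h1 h2
    have h3 := hnx z h1 h2
    have h4 : q (nx z) ≠ nx z := by
      rw [h3.1]
      exact (hnxne z h1 h2).symm
    have h5 := (h.adj _ h4).2
    rw [h3.1] at h5
    exact h5.symm
  have hpadj : ∀ u v, u ≠ v → p' u = v → B.Adj u v ∨ p u = v ∨ p v = u := by
    intro u v hne hu
    by_cases h1 : pR u = u
    · rw [hp1 u h1] at hu
      exact Or.inr (Or.inl hu)
    · by_cases h2 : Anc q f u ∧ u ≠ f
      · rw [hp2 u h2.1 h2.2] at hu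
        rw [← hu]
        exact Or.inl (hnxadj u h2.1 h2.2)
      · rw [hp3 u h1 h2] at hu
        have h3 := (hr5 u (hr7 u h1 h2)).2.2.2
        rw [hu] at h3
        rcases h3 with h3 | h3
        · have h4 := (rsf_ne h1).2.2
          rw [← hpR] at h4
          exact Or.inr (Or.inl (h4 ▸ h3))
        · have h4 : pR v ≠ v := by
            rw [h3]
            exact hne
          have h5 := (rsf_ne h4).2.2
          rw [← hpR] at h5
          exact Or.inr (Or.inr (h5 ▸ h3))
  -- old function arcs survive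
  have hpold : ∀ u v, u ≠ v → p u = v → B'.Adj u v ∨ p' u = v ∨ p' v = u := by
    intro u v hne hu
    by_cases h1 : pR u = u
    · right
      left
      rw [hp1 u h1]
      exact hu
    · have h2 : pR u = v := by
        rw [← hu]
        exact (rsf_ne h1).2.2
      by_cases h3 : ∃ i, u = e i
      · obtain ⟨i, rfl⟩ := h3
        left
        rw [adj']
        exact ⟨Or.inr ⟨i, by show s(e i, pR (e i)) = s(e i, v); rw [h2]⟩, hne⟩
      · push Not at h3
        rcases hr6 u h1 h3 with ⟨h4, h5⟩ | ⟨h4, h5⟩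
        · right
          left
          have h6 := hrne u h4
          rw [hp3 u h6.1 h6.2, h5, h2]
        · right
          right
          rw [h2] at h4 h5
          have h6 := hrne v h4
          rw [hp3 v h6.1 h6.2, h5]
  refine ⟨f, C, B', p', hfR, ?_, ?_, htree, ?_, ?_, ?_, ?_, ?_, ?_, ?_⟩
  · -- C ⊆ R
    intro v hv
    simp only [C, Finset.mem_union, Finset.mem_filter, Finset.mem_univ, true_and,
      Finset.mem_image] at hv
    rcases hv with (hv | ⟨i, rfl⟩) | ⟨i, rfl⟩
    · exact h.anc_mem hfR hv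
    · exact (heR i).1
    · exact (heR i).2.1
  · -- size
    have h1 : (Finset.univ.filter fun v => Anc q f v).card ≤ l f + 1 :=
      h.lv.card_anc f _ (by simp)
    have h2 : Fintype.card ι ≤ l f + 1 := by
      refine le_trans ?_ h1
      rw [Fintype.card_subtype]
      refine Finset.card_le_card ?_
      intro v hv
      simp only [Finset.mem_filter, Finset.mem_univ, true_and] at hv ⊢
      exact hv.1
    have h3 : (Finset.univ.image e).card ≤ Fintype.card ι := Finset.card_image_le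
    have h4 : (Finset.univ.image fun i => pR (e i)).card ≤ Fintype.card ι := Finset.card_image_le
    have h5 := Finset.card_union_le ((Finset.univ.filter fun v => Anc q f v) ∪
      Finset.univ.image e) (Finset.univ.image fun i => pR (e i))
    have h6 := Finset.card_union_le (Finset.univ.filter fun v => Anc q f v)
      (Finset.univ.image e)
    show ((Finset.univ.filter fun v => Anc q f v) ∪ Finset.univ.image e ∪
      Finset.univ.image fun i => pR (e i)).card ≤ _
    omega
  · -- agreement off C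
    intro u v hu
    rw [adj']
    constructor
    · rintro ⟨⟨h1, -⟩ | h1, -⟩
      · exact h1
      · exfalso
        obtain ⟨i, ⟨rfl, rfl⟩ | ⟨rfl, rfl⟩⟩ := hEEmem u v h1
        · exact hu (hC2 i)
        · exact hu (hC3 i)
    · intro h1
      refine ⟨Or.inl ⟨h1, fun h2 => ?_⟩, h1.ne⟩
      rcases hPEmem u v h2 with ⟨h3, h4, h5⟩ | ⟨h3, h4, h5⟩
      · exact hu (hC1 u h3)
      · refine hu (hC1 u ?_)
        rw [h5]
        exact (hnx v h3 h4).2.1
  · -- new edges inside R
    intro u v huv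
    rw [adj'] at huv
    obtain ⟨⟨h1, -⟩ | h1, -⟩ := huv
    · exact Or.inl h1
    · right
      obtain ⟨i, ⟨rfl, rfl⟩ | ⟨rfl, rfl⟩⟩ := hEEmem u v h1
      · exact ⟨(heR i).1, (heR i).2.1⟩
      · exact ⟨(heR i).2.1, (heR i).1⟩
  · -- edges
    intro u v hne
    constructor
    · rintro (h1 | h1 | h1)
      · exact hadjB' u v h1
      · exact hpadj u v hne h1
      · rcases hpadj v u hne.symm h1 with h2 | h2 | h2
        · exact Or.inl h2.symm
        · exact Or.inr (Or.inr h2)
        · exact Or.inr (Or.inl h2)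
    · rintro (h1 | h1 | h1)
      · by_cases h2 : s(u, v) ∈ PE
        · rcases hPEmem u v h2 with ⟨h3, h4, h5⟩ | ⟨h3, h4, h5⟩
          · right
            left
            rw [hp2 u h3 h4, h5]
          · right
            right
            rw [hp2 v h3 h4, h5]
        · left
          rw [adj']
          exact ⟨Or.inl ⟨h1, h2⟩, hne⟩
      · exact hpold u v hne h1
      · rcases hpold v u hne.symm h1 with h2 | h2 | h2
        · exact Or.inl h2.symm
        · exact Or.inr (Or.inr h2)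
        · exact Or.inr (Or.inl h2)
  · -- fixed points
    intro v
    by_cases h1 : pR v = v
    · rw [hp1 v h1]
    · have h2 : p v ≠ v := by
        have := (rsf_ne h1).2.2
        rw [← this]
        exact h1
      refine iff_of_false ?_ h2
      by_cases h3 : Anc q f v ∧ v ≠ f
      · rw [hp2 v h3.1 h3.2]
        exact hnxne v h3.1 h3.2
      · rw [hp3 v h1 h3]
        exact (hr5 v (hr7 v h1 h3)).1
  · -- outside R
    intro v hv
    exact hp1 v (rsf_not fun h1 => hv h1.1)
  · -- acyclic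
    refine ⟨fun v => lev v + if Anc q f (r v) ∧ r v ≠ f then l f - l (r v) else 0, fun v hv => ?_⟩
    obtain ⟨h1, h2, h3⟩ := rsf_ne hv
    rw [h3] at hv ⊢
    by_cases h4 : pR v = v
    · exfalso
      have h5 := hp1 v h4
      rw [h5] at h2 hv
      have h6 : pR v = p v := rsf_of h1 h2
      exact hv (h6.symm.trans h4)
    · by_cases h5 : Anc q f v ∧ v ≠ f
      · rw [hp2 v h5.1 h5.2]
        have h6 := hnx v h5.1 h5.2
        have h7 : r v = v := hr1 ⟨v, h5⟩
        have h8 : l v < l f := by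
          have h9 := h.lv.anc_le h5.1
          rcases h9.eq_or_lt with h10 | h10
          · exact absurd (h.lv.anc_eq h5.1 h10.ge).symm h5.2
          · exact h10
        simp only [h7, h5.1, h5.2, ne_eq, not_false_eq_true, and_self, if_true, hr4 v h7]
        by_cases h9 : nx v = f
        · have h10 : r f = f := hr2 f hff
          rw [h9]
          simp only [h10, hr4 f h10, ne_eq, not_true_eq_false, and_false, if_false]
          omega
        · have h10 : r (nx v) = nx v := hr1 ⟨nx v, h6.2.1, h9⟩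
          simp only [h10, hr4 _ h10, h9, h6.2.1, ne_eq, not_false_eq_true, and_self, if_true]
          omega
      · rw [hp3 v h4 h5]
        have h6 := hr5 v (hr7 v h4 h5)
        simp only [h6.2.2.1]
        omega
  · -- no closed set contains `a`
    intro T hT haT hcon
    have key : ∀ k, ∀ z, Anc q f z → l f - l z ≤ k → z ∈ T → f ∈ T := by
      intro k
      induction k with
      | zero =>
        intro z hz hk hzT
        have h1 : f = z := h.lv.anc_eq hz (by omega)
        rw [h1]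
        exact hzT
      | succ k ih =>
        intro z hz hk hzT
        by_cases h1 : z = f
        · rw [← h1]
          exact hzT
        · have h2 := hcon z hzT (hC1 z hz)
          rw [hp2 z hz h1] at h2
          have h3 := hnx z hz h1
          exact ih (nx z) h3.2.1 (by omega) h2.2
    have hfT : f ∈ T := key _ a (h.anc f hfR) le_rfl haT
    have h1 := hcon f hfT (hC1 f (Anc.refl _ _))
    rw [hp1 f hff] at h1
    have h2 : pR f = p f := rsf_of hfR (hT h1.2)
    exact h1.1 (h2.symm.trans hff)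

end Pool.Agent.L7h33.BD
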