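import Pool.Agent.TH87.BD.Basic

/-! # Rooted forests given by a function (fixed points are the roots) -/

set_option autoImplicit false

namespace Pool.Agent.L7h33.BD

open SimpleGraph Finset

/-- `w` is a weak ancestor of `v`: reached from `v` by iterating `f`. -/
def Anc {V : Type*} (f : V → V) (v w : V) : Prop := ∃ n, f^[n] v = w

/-- `f` is a rooted forest (fixed points are the roots) of depth at most `n`. -/
def Dp {V : Type*} (f : V → V) (n : ℕ) : Prop :=
  ∃ φ : V → ℕ, (∀ v, φ v ≤ n) ∧ ∀ v, f v ≠ v → φ (f v) < φ v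

/-- `f` is a rooted forest (fixed points are the roots). -/
def Acy {V : Type*} (f : V → V) : Prop := ∃ φ : V → ℕ, ∀ v, f v ≠ v → φ (f v) < φ v

/-- `f` cut above the vertices of `E`. -/
noncomputable def cutf {V : Type*} (f : V → V) (E : Set V) : V → V :=
  fun v => by classical exact if v ∈ E then v else f v

/-- The bounded chain property: whenever `p a` lies below `a` in the forest `par`, at most `m`
steps `u → w` (`w` an ancestor of `p u`, strictly below `a`) lead to a vertex `u` that is a root of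
`p` or has `p u` not below `a`. -/
def ChainP {V : Type*} (par p : V → V) (m : ℕ) : Prop :=
  ∀ a, p a ≠ a → Anc par (p a) a → ∃ j ≤ m, ∃ x : ℕ → V, x 0 = a ∧
    (∀ i < j, p (x i) ≠ x i ∧ Anc par (p (x i)) (x (i + 1)) ∧ Anc par (x (i + 1)) a ∧
      x (i + 1) ≠ a) ∧
    (p (x j) = x j ∨ ¬ Anc par (p (x j)) a)

/-- The rearranged forest `ρ` with cut vertices `Cut`, owners `own` and targets `tgt`. -/
structure RS {V : Type*} (par p ρ : V → V) (Cut : Set V) (own tgt : V → V) (M : ℕ) : Prop where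
  dep : Dp ρ M
  ncut : ∀ v, v ∉ Cut → ρ v = par v ∧ own v = v
  cut : ∀ v, v ∈ Cut → par v ≠ v ∧ ρ v ≠ v ∧ own (ρ v) = own v
  att : ∀ v, v ∈ Cut → ∃ y, y ∈ Cut ∧ own y = own v ∧ Anc ρ v y ∧
    (par v = ρ y ∨ ∃ w, w ∉ Cut ∧ ρ w = ρ y ∧ w ≠ ρ y ∧ Anc ρ (par v) w)
  arc : ∀ v, p v ≠ v → (tgt (own v) = p v ∧ ¬ Anc ρ (p v) (own v)) ∨
    ∃ y, y ∈ Cut ∧ ρ y = v ∧ own y = own v ∧ Anc ρ (p v) y
  rt : ∀ v r, par r = r → (Anc par v r ↔ Anc par (ρ v) r)

section basic

variable {V : Type*}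

theorem Anc.refl (f : V → V) (v : V) : Anc f v v := ⟨0, rfl⟩

theorem Anc.trans {f : V → V} {u v w : V} (h1 : Anc f u v) (h2 : Anc f v w) : Anc f u w := by
  obtain ⟨m, rfl⟩ := h1
  obtain ⟨n, rfl⟩ := h2
  exact ⟨n + m, Function.iterate_add_apply _ _ _ _⟩

theorem Anc.step (f : V → V) (v : V) : Anc f v (f v) := ⟨1, rfl⟩

theorem Anc.of_step {f : V → V} {v w : V} (h : Anc f (f v) w) : Anc f v w :=
  (Anc.step f v).trans h

theorem Anc.up {f : V → V} {v w : V} (h : Anc f v w) : Anc f v (f w) :=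
  h.trans (Anc.step f w)

/-- Either equal or one step up. -/
theorem Anc.eq_or {f : V → V} {v w : V} (h : Anc f v w) : v = w ∨ Anc f (f v) w := by
  obtain ⟨n, hn⟩ := h
  cases n with
  | zero => exact Or.inl hn
  | succ n => exact Or.inr ⟨n, hn⟩

theorem anc_step_iff {f : V → V} {v w : V} (h : v ≠ w) : Anc f v w ↔ Anc f (f v) w :=
  ⟨fun h1 => h1.eq_or.resolve_left h, Anc.of_step⟩

theorem Acy.of_dp {f : V → V} {n : ℕ} (h : Dp f n) : Acy f := by
  obtain ⟨φ, -, h⟩ := h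
  exact ⟨φ, h⟩

theorem Acy.dp [Fintype V] {f : V → V} (h : Acy f) : ∃ n, Dp f n := by
  obtain ⟨φ, h⟩ := h
  exact ⟨Finset.univ.sup φ, φ, fun v => Finset.le_sup (Finset.mem_univ v), h⟩

/-- The canonical levels. -/
theorem Dp.lev {f : V → V} {n : ℕ} (h : Dp f n) : ∃ l : V → ℕ, (∀ v, l v ≤ n) ∧
    (∀ v, f v ≠ v → l v = l (f v) + 1) ∧ ∀ v, f v = v → l v = 0 := by
  classical
  obtain ⟨φ, h1, h2⟩ := h
  have hex : ∀ k v, φ v ≤ k → ∃ i ≤ φ v, f (f^[i] v) = f^[i] v := by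
    intro k
    induction k with
    | zero =>
      intro v hv
      by_cases hf : f v = v
      · exact ⟨0, Nat.zero_le _, hf⟩
      · have := h2 v hf
        omega
    | succ k ih =>
      intro v hv
      by_cases hf : f v = v
      · exact ⟨0, Nat.zero_le _, hf⟩
      · have h3 := h2 v hf
        obtain ⟨i, hi, hi'⟩ := ih (f v) (by omega)
        exact ⟨i + 1, by omega, hi'⟩
  have hex' : ∀ v, ∃ i, f (f^[i] v) = f^[i] v := fun v =>
    let ⟨i, _, hi⟩ := hex _ v le_rfl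
    ⟨i, hi⟩
  refine ⟨fun v => Nat.find (hex' v), fun v => ?_, fun v hv => ?_, fun v hv => ?_⟩
  · obtain ⟨i, hi, hi'⟩ := hex _ v le_rfl
    exact ((Nat.find_min' (hex' v) hi').trans hi).trans (h1 v)
  · rw [Nat.find_eq_iff]
    refine ⟨Nat.find_spec (hex' (f v)), fun i hi => ?_⟩
    cases i with
    | zero => exact hv
    | succ i => exact Nat.find_min (hex' (f v)) (Nat.lt_of_succ_lt_succ hi)
  · exact (Nat.find_eq_zero (hex' v)).2 hv

end basic

end Pool.Agent.L7h33.BD
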