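import Pool.Agent.L7h33.BD.Fun

/-! # More on rooted forests given by a function -/

set_option autoImplicit false

namespace Pool.Agent.L7h33.BD

open SimpleGraph Finset

/-- The canonical level function of a rooted forest. -/
structure Lv {V : Type*} (f : V → V) (l : V → ℕ) : Prop where
  suc : ∀ v, f v ≠ v → l v = l (f v) + 1
  zero : ∀ v, f v = v → l v = 0

section

variable {V : Type*} {f : V → V} {l : V → ℕ}

theorem Dp.exists_lv {n : ℕ} (h : Dp f n) : ∃ l, Lv f l ∧ ∀ v, l v ≤ n := by
  obtain ⟨l, h1, h2, h3⟩ := h.lev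
  exact ⟨l, ⟨h2, h3⟩, h1⟩

theorem Lv.pot (h : Lv f l) {v : V} (hv : f v ≠ v) : l (f v) < l v := by
  have := h.suc v hv
  omega

theorem Lv.acy (h : Lv f l) : Acy f := ⟨l, fun _ hv => h.pot hv⟩

theorem Lv.dp (h : Lv f l) {n : ℕ} (hn : ∀ v, l v ≤ n) : Dp f n := ⟨l, hn, fun _ hv => h.pot hv⟩

theorem Lv.le_step (h : Lv f l) (v : V) : l (f v) ≤ l v := by
  by_cases hv : f v = v
  · rw [hv]
  · exact (h.pot hv).le

theorem Lv.anc_le (h : Lv f l) {v w : V} (hw : Anc f v w) : l w ≤ l v := by
  obtain ⟨n, rfl⟩ := hw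
  induction n with
  | zero => exact le_rfl
  | succ n ih =>
    rw [Function.iterate_succ_apply']
    exact (h.le_step _).trans ih

theorem Lv.iter (h : Lv f l) (v : V) (n : ℕ) (hn : n ≤ l v) : l (f^[n] v) = l v - n := by
  induction n with
  | zero => simp
  | succ n ih =>
    rw [Function.iterate_succ_apply']
    have h1 := ih (by omega)
    have h2 : f (f^[n] v) ≠ f^[n] v := by
      intro h3
      have := h.zero _ h3
      omega
    have := h.suc _ h2
    omega

theorem Lv.anc_eq (h : Lv f l) {v w : V} (hw : Anc f v w) (hl : l v ≤ l w) : v = w := by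
  obtain ⟨n, hn⟩ := hw
  by_cases hv : f v = v
  · have : f^[n] v = v := Function.iterate_fixed hv n
    rw [← hn, this]
  · cases n with
    | zero => exact hn
    | succ n =>
      exfalso
      have h1 : Anc f (f v) w := ⟨n, hn⟩
      have h2 := h.anc_le h1
      have h3 := h.pot hv
      omega

theorem Lv.antisymm (h : Lv f l) {v w : V} (h1 : Anc f v w) (h2 : Anc f w v) : v = w :=
  h.anc_eq h1 (h.anc_le h2)

theorem Anc.comparable {u v w : V} (h1 : Anc f u v) (h2 : Anc f u w) :
    Anc f v w ∨ Anc f w v := by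
  obtain ⟨m, rfl⟩ := h1
  obtain ⟨n, rfl⟩ := h2
  rcases le_total m n with h | h
  · exact Or.inl ⟨n - m, by rw [← Function.iterate_add_apply]; congr 1; omega⟩
  · exact Or.inr ⟨m - n, by rw [← Function.iterate_add_apply]; congr 1; omega⟩

/-- Two ancestors of a vertex with levels in order. -/
theorem Lv.anc_of_le (h : Lv f l) {u v w : V} (h1 : Anc f u v) (h2 : Anc f u w)
    (hl : l w ≤ l v) : Anc f v w := by
  rcases h1.comparable h2 with h3 | h3
  · exact h3
  · rw [h.anc_eq h3 hl]
    exact Anc.refl _ _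

theorem Lv.anc_unique (h : Lv f l) {u v w : V} (h1 : Anc f u v) (h2 : Anc f u w)
    (hl : l v = l w) : v = w :=
  h.anc_eq (h.anc_of_le h1 h2 hl.ge) hl.le

theorem Lv.ne_of_pos (h : Lv f l) {v : V} (hv : 0 < l v) : f v ≠ v := fun h1 => by
  have := h.zero v h1
  omega

theorem Anc.of_fix {v w : V} (h : Anc f v w) (hv : f v = v) : w = v := by
  obtain ⟨n, rfl⟩ := h
  exact Function.iterate_fixed hv n

/-- Every vertex has a root. -/
theorem Lv.exists_root (h : Lv f l) (v : V) : ∃ r, Anc f v r ∧ f r = r := by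
  refine ⟨f^[l v] v, ⟨_, rfl⟩, ?_⟩
  by_contra hne
  have h1 := h.iter v (l v) le_rfl
  have := h.pot hne
  omega

theorem Acy.exists_root (h : Acy f) (v : V) : ∃ r, Anc f v r ∧ f r = r := by
  obtain ⟨φ, h⟩ := h
  have key : ∀ k v, φ v ≤ k → ∃ r, Anc f v r ∧ f r = r := by
    intro k
    induction k with
    | zero =>
      intro v hv
      by_cases hf : f v = v
      · exact ⟨v, Anc.refl _ _, hf⟩
      · have := h v hf
        omega
    | succ k ih =>
      intro v hv
      by_cases hf : f v = v
      · exact ⟨v, Anc.refl _ _, hf⟩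
      · have := h v hf
        obtain ⟨r, h1, h2⟩ := ih (f v) (by omega)
        exact ⟨r, Anc.of_step h1, h2⟩
  exact key _ v le_rfl

theorem root_unique {v r r' : V} (h1 : Anc f v r) (h2 : f r = r) (h3 : Anc f v r')
    (h4 : f r' = r') : r = r' := by
  rcases h1.comparable h3 with h | h
  · exact (h.of_fix h2).symm
  · exact h.of_fix h4

/-- The number of ancestors. -/
theorem Lv.card_anc [Fintype V] (h : Lv f l) (v : V) (S : Finset V) (hS : ∀ w ∈ S, Anc f v w) :
    S.card ≤ l v + 1 := by
  classical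
  have h1 : S.card ≤ (Finset.range (l v + 1)).card := by
    refine Finset.card_le_card_of_injOn l ?_ ?_
    · intro w hw
      have := h.anc_le (hS w hw)
      simp only [Finset.coe_range, Set.mem_Iio]
      omega
    · intro w hw w' hw' heq
      exact h.anc_unique (hS w hw) (hS w' hw') heq
  simpa using h1

/-- Restriction of a rooted forest function is acyclic. -/
theorem Acy.mono {g : V → V} (h : Acy f) (hg : ∀ v, g v = v ∨ g v = f v) : Acy g := by
  obtain ⟨φ, h⟩ := h
  refine ⟨φ, fun v hv => ?_⟩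
  rcases hg v with h1 | h1
  · exact absurd h1 hv
  · rw [h1] at hv ⊢
    exact h v hv

theorem Dp.mono {g : V → V} {n : ℕ} (h : Dp f n) (hg : ∀ v, g v = v ∨ g v = f v) : Dp g n := by
  obtain ⟨φ, hn, h⟩ := h
  refine ⟨φ, hn, fun v hv => ?_⟩
  rcases hg v with h1 | h1
  · exact absurd h1 hv
  · rw [h1] at hv ⊢
    exact h v hv

theorem Dp.le {m n : ℕ} (h : Dp f m) (hmn : m ≤ n) : Dp f n := by
  obtain ⟨φ, hn, h⟩ := h
  exact ⟨φ, fun v => (hn v).trans hmn, h⟩

end

/-- The graph of a function. -/
def tg {V : Type*} (f : V → V) : SimpleGraph V := SimpleGraph.fromRel fun u v => f u = v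

theorem tg_adj {V : Type*} (f : V → V) (u v : V) :
    (tg f).Adj u v ↔ u ≠ v ∧ (f u = v ∨ f v = u) := SimpleGraph.fromRel_adj _ _ _

theorem tg_acyclic {V : Type*} {f : V → V} (h : Acy f) : (tg f).IsAcyclic := by
  classical
  obtain ⟨φ, h⟩ := h
  refine Pool.Agent.TH87.BD.acyclic_of_pot (fun v => if f v = v then none else some (f v))
    (fun v => OrderDual.toDual (φ v)) (fun x y hxy => ?_) (fun x y hxy => ?_)
  · by_cases hx : f x = x
    · simp [hx] at hxy
    · simp only [hx, if_false, Option.some.injEq] at hxy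
      rw [← hxy]
      exact h x hx
  · rw [tg_adj] at hxy
    obtain ⟨hne, h1 | h1⟩ := hxy
    · left
      rw [if_neg (by rw [h1]; exact hne.symm), h1]
    · right
      rw [if_neg (by rw [h1]; exact hne), h1]

/-- Restriction of a graph. -/
def rst {V : Type*} (B : SimpleGraph V) (R : Set V) : SimpleGraph V where
  Adj u v := B.Adj u v ∧ u ∈ R ∧ v ∈ R
  symm := ⟨fun _ _ h => ⟨h.1.symm, h.2.2, h.2.1⟩⟩
  loopless := ⟨fun _ h => h.1.ne rfl⟩

theorem rst_le {V : Type*} (B : SimpleGraph V) (R : Set V) : rst B R ≤ B := fun _ _ h => h.1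

/-- Restriction of a function. -/
noncomputable def rsf {V : Type*} (p : V → V) (R : Set V) : V → V :=
  fun v => by classical exact if v ∈ R ∧ p v ∈ R then p v else v

section
variable {V : Type*} {p : V → V} {R : Set V}

theorem rsf_of {v : V} (h : v ∈ R) (h' : p v ∈ R) : rsf p R v = p v := by
  classical
  exact if_pos ⟨h, h'⟩

theorem rsf_not {v : V} (h : ¬ (v ∈ R ∧ p v ∈ R)) : rsf p R v = v := by
  classical
  exact if_neg h

theorem rsf_ne {v : V} (h : rsf p R v ≠ v) : v ∈ R ∧ p v ∈ R ∧ rsf p R v = p v := by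
  by_cases h1 : v ∈ R ∧ p v ∈ R
  · exact ⟨h1.1, h1.2, rsf_of h1.1 h1.2⟩
  · exact absurd (rsf_not h1) h

theorem rsf_mem {v : V} (h : v ∈ R) : rsf p R v ∈ R := by
  by_cases h1 : v ∈ R ∧ p v ∈ R
  · rw [rsf_of h1.1 h1.2]
    exact h1.2
  · rw [rsf_not h1]
    exact h

theorem rsf_mem_iter {v : V} (h : v ∈ R) (n : ℕ) : (rsf p R)^[n] v ∈ R := by
  induction n with
  | zero => exact h
  | succ n ih =>
    rw [Function.iterate_succ_apply']
    exact rsf_mem ih

theorem rsf_or (v : V) : rsf p R v = v ∨ rsf p R v = p v := by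
  by_cases h1 : v ∈ R ∧ p v ∈ R
  · exact Or.inr (rsf_of h1.1 h1.2)
  · exact Or.inl (rsf_not h1)

end

/-- Rooting a connected region of a forest at a given vertex. -/
theorem root_at {V : Type*} (B : SimpleGraph V) (hB : B.IsAcyclic) (R : Set V) (z : V)
    (hz : z ∈ R) (hc : ∀ u ∈ R, (rst B R).Reachable u z) :
    ∃ (q : V → V) (l : V → ℕ), Lv q l ∧ q z = z ∧ (∀ v, v ∉ R → q v = v) ∧
      (∀ v, v ∈ R → v ≠ z → q v ≠ v) ∧ (∀ v, q v ≠ v → q v ∈ R ∧ B.Adj v (q v)) ∧
      (∀ u v, u ∈ R → v ∈ R → B.Adj u v → q u = v ∨ q v = u) ∧ (∀ v, v ∈ R → Anc q v z) := by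
  classical
  obtain ⟨p, l, h1, h2, h3, h4⟩ := Pool.Agent.TH87.BD.exists_rooting_at (rst B R)
    (hB.anti (rst_le B R)) (fun v => if v ∈ R then z else v) (fun v => by
      by_cases hv : v ∈ R
      · simp only [hv, if_true]
        exact hc v hv
      · simp only [hv, if_false]
        exact Reachable.refl _) (fun u v huv => by
      have key : ∀ u v, (rst B R).Reachable u v → u ≠ v → u ∈ R := by
        intro u v ⟨w⟩ hne
        cases w with
        | nil => exact absurd rfl hne
        | cons h _ => exact h.2.1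
      by_cases hne : u = v
      · rw [hne]
      · have hu := key u v huv hne
        have hv := key v u huv.symm (Ne.symm hne)
        simp [hu, hv])
  have hq : ∀ v w, p v = some w → (p v).getD v = w := fun v w h => by rw [h]; rfl
  have hq0 : ∀ v, p v = none → (p v).getD v = v := fun v h => by rw [h]; rfl
  have hzero : ∀ v, v ∉ R ∨ v = z → p v = none := by
    intro v hv
    rcases hp : p v with _ | w
    · rfl
    · exfalso
      have h5 := (h1 v w hp).2
      have h6 := h4 v
      have h7 : (if v ∈ R then z else v) = v := by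
        rcases hv with hv | hv
        · simp [hv]
        · simp [hv, hz]
      rw [h7, SimpleGraph.dist_self] at h6
      omega
  have hsome : ∀ v, v ∈ R → v ≠ z → ∃ w, p v = some w := by
    intro v hv hne
    rcases hp : p v with _ | w
    · exfalso
      have h5 := h2 v hp
      have h6 := h4 v
      simp only [hv, if_true] at h6
      rw [h5] at h6
      exact hne (((hc v hv).dist_eq_zero_iff).1 h6.symm)
    · exact ⟨w, rfl⟩
  refine ⟨fun v => (p v).getD v, l, ⟨fun v hv => ?_, fun v hv => ?_⟩, hq0 z (hzero z (Or.inr rfl)),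
    fun v hv => hq0 v (hzero v (Or.inl hv)), fun v hv hne => ?_, fun v hv => ?_,
    fun u v hu hv huv => ?_, ?_⟩
  · rcases hp : p v with _ | w
    · exact absurd (hq0 v hp) hv
    · rw [hq v w hp] at hv
      simp only [Option.getD_some]
      exact (h1 v w hp).2
  · rcases hp : p v with _ | w
    · exact h2 v hp
    · simp only [hq v w hp] at hv
      exact absurd hv.symm (h1 v w hp).1.ne
  · obtain ⟨w, hw⟩ := hsome v hv hne
    show (p v).getD v ≠ v
    rw [hq v w hw]
    exact (h1 v w hw).1.ne'
  · rcases hp : p v with _ | w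
    · exact absurd (hq0 v hp) hv
    · show (p v).getD v ∈ R ∧ B.Adj v ((p v).getD v)
      rw [hq v w hp]
      exact ⟨(h1 v w hp).1.2.2, (h1 v w hp).1.1⟩
  · rcases h3 u v ⟨huv, hu, hv⟩ with h | h
    · exact Or.inl (hq u v h)
    · exact Or.inr (hq v u h)
  · have key : ∀ k v, v ∈ R → l v ≤ k → Anc (fun v => (p v).getD v) v z := by
      intro k
      induction k with
      | zero =>
        intro v hv hk
        by_cases hne : v = z
        · rw [hne]
          exact Anc.refl _ _
        · obtain ⟨w, hw⟩ := hsome v hv hne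
          have := (h1 v w hw).2
          omega
      | succ k ih =>
        intro v hv hk
        by_cases hne : v = z
        · rw [hne]
          exact Anc.refl _ _
        · obtain ⟨w, hw⟩ := hsome v hv hne
          have h5 := (h1 v w hw)
          have h6 := ih w h5.1.2.2 (by omega)
          refine Anc.of_step ?_
          show Anc (fun v => (p v).getD v) ((p v).getD v) z
          rw [hq v w hw]
          exact h6
    exact fun v hv => key _ v hv le_rfl

end Pool.Agent.L7h33.BD
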