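import Pool.Agent.L7h33.BD.Exch2
import Pool.Agent.L7h33.BD.Defs

/-! # States and the step -/

set_option autoImplicit false

namespace Pool.Agent.L7h33.BD

open SimpleGraph Finset

/-- Closed regions. -/
structure Clo {X : Type} (par : X → X) (Sk : Finset X) (B : SimpleGraph X) (p : X → X)
    (R : Set X) : Prop where
  cell : ∀ v, v ∉ Sk → (v ∈ R ↔ par v ∈ R)
  conn : ∀ u ∈ R, ∀ v ∈ R, (rst B R).Reachable u v
  inn : ∀ u ∈ R, u ∈ Sk → p u ≠ u ∧ p u ∈ R

/-- States. -/
structure St {X : Type} (par p₀ : X → X) (x : X) (Sk : Finset X) (B : SimpleGraph X)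
    (p : X → X) : Prop where
  root : x ∈ Sk
  up : ∀ v, v ∈ Sk → par v ∈ Sk
  tree : B.IsTree
  agree : ∀ u v, u ∉ Sk → (B.Adj u v ↔ (tg par).Adj u v)
  edges : ∀ u v, u ≠ v → ((B.Adj u v ∨ p u = v ∨ p v = u) ↔
    ((tg par).Adj u v ∨ p₀ u = v ∨ p₀ v = u))
  fix : ∀ v, p v = v ↔ p₀ v = v
  acyc : ∀ R, Clo par Sk B p R → Acy (rsf p R)
  acyc' : ∃ φ : X → ℕ, ∀ v, p v ≠ v → (∃ u, u ∈ (Sk : Set X) ∧
    Anc (cutf par (Sk : Set X)) v u ∧ Anc (cutf par (Sk : Set X)) (p v) u) → φ (p v) < φ v

section

variable {X : Type} {par p₀ : X → X} {x : X} {L : X → ℕ} {Sk : Finset X}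
  {B : SimpleGraph X} {p : X → X}

theorem off_eq (hL : Lv par L) {h : ℕ} (hh : ∀ v, L v ≤ h) (hst : St par p₀ x Sk B p)
    {R : Set X} {z : X} {q : X → X} {l : X → ℕ} (hq : Rtd B R z q l) (hz : z ∈ Sk) :
    ∀ v, v ∈ R → v ∉ Sk → q v = par v := by
  have key : ∀ k v, v ∈ R → v ∉ Sk → h - L v ≤ k → q v = par v := by
    intro k
    induction k with
    | zero =>
      intro v hv hvS hk
      have hvz : v ≠ z := fun h1 => hvS (h1 ▸ hz)
      have h1 := hq.mov v hv hvz
      have h2 := hq.adj v h1
      have h3 := (hst.agree v (q v) hvS).1 h2.2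
      rw [tg_adj] at h3
      rcases h3.2 with h4 | h4
      · exact h4.symm
      · exfalso
        have h5 := hL.suc (q v) (by rw [h4]; exact h3.1)
        rw [h4] at h5
        have := hh (q v)
        omega
    | succ k ih =>
      intro v hv hvS hk
      have hvz : v ≠ z := fun h1 => hvS (h1 ▸ hz)
      have h1 := hq.mov v hv hvz
      have h2 := hq.adj v h1
      have h3 := (hst.agree v (q v) hvS).1 h2.2
      rw [tg_adj] at h3
      rcases h3.2 with h4 | h4
      · exact h4.symm
      · exfalso
        have h5 := hL.suc (q v) (by rw [h4]; exact h3.1)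
        rw [h4] at h5
        have h6 : q v ∉ Sk := fun h7 => hvS (h4 ▸ hst.up _ h7)
        have h7 := ih (q v) h2.1 h6 (by omega)
        rw [h4] at h7
        have h8 := hq.lv.suc v h1
        have h9 := hq.lv.suc (q v) (by rw [h7]; exact h3.1)
        rw [h7] at h9
        omega
  exact fun v hv hvS => key _ v hv hvS le_rfl

theorem on_mem (hL : Lv par L) {h : ℕ} (hh : ∀ v, L v ≤ h) (hst : St par p₀ x Sk B p)
    {R : Set X} {z : X} {q : X → X} {l : X → ℕ} (hq : Rtd B R z q l) (hz : z ∈ Sk) :
    ∀ v, v ∈ R → v ∈ Sk → q v ∈ Sk := by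
  intro v hv hvS
  by_contra hcon
  have h1 : q v ≠ v := fun h1 => hcon (by rw [h1]; exact hvS)
  have h2 := hq.adj v h1
  have h3 := off_eq hL hh hst hq hz (q v) h2.1 hcon
  have h4 := (hst.agree (q v) v hcon).1 h2.2.symm
  rw [tg_adj] at h4
  rcases h4.2 with h5 | h5
  · rw [h5] at h3
    have h8 := hq.lv.suc v h1
    have h9 := hq.lv.suc (q v) (by rw [h3]; exact h4.1.symm)
    rw [h3] at h9
    omega
  · apply hcon
    rw [← h5]
    exact hst.up v hvS

theorem lev_le (hL : Lv par L) {h : ℕ} (hh : ∀ v, L v ≤ h) (hst : St par p₀ x Sk B p)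
    {R : Set X} {z : X} {q : X → X} {l : X → ℕ} (hq : Rtd B R z q l) (hz : z ∈ Sk) :
    ∀ v, v ∈ R → l v ≤ Sk.card + L v := by
  have h1 : ∀ v, v ∈ R → v ∈ Sk → l v + 1 ≤ Sk.card := by
    intro v hv hvS
    have hmem : ∀ n, q^[n] v ∈ R ∧ q^[n] v ∈ Sk := by
      intro n
      induction n with
      | zero => exact ⟨hv, hvS⟩
      | succ n ih =>
        rw [Function.iterate_succ_apply']
        exact ⟨hq.q_mem ih.1, on_mem hL hh hst hq hz _ ih.1 ih.2⟩
    have h2 : (Finset.range (l v + 1)).card ≤ Sk.card := by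
      refine Finset.card_le_card_of_injOn (fun n => q^[n] v) (fun n _ => (hmem n).2) ?_
      intro i hi j hj hij
      simp only [Finset.coe_range, Set.mem_Iio] at hi hj
      have h3 := hq.lv.iter v i (by omega)
      have h4 := hq.lv.iter v j (by omega)
      have h5 : q^[i] v = q^[j] v := hij
      rw [h5] at h3
      omega
    simpa using h2
  have key : ∀ k v, v ∈ R → L v ≤ k → l v ≤ Sk.card + L v := by
    intro k
    induction k with
    | zero =>
      intro v hv hk
      by_cases hvS : v ∈ Sk
      · have := h1 v hv hvS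
        omega
      · have h2 := off_eq hL hh hst hq hz v hv hvS
        have hvz : v ≠ z := fun h1 => hvS (h1 ▸ hz)
        have h3 := hq.mov v hv hvz
        rw [h2] at h3
        have := hL.suc v h3
        omega
    | succ k ih =>
      intro v hv hk
      by_cases hvS : v ∈ Sk
      · have := h1 v hv hvS
        omega
      · have h2 := off_eq hL hh hst hq hz v hv hvS
        have hvz : v ≠ z := fun h1 => hvS (h1 ▸ hz)
        have h3 := hq.mov v hv hvz
        have h4 := hq.lv.suc v h3
        have h5 := ih (q v) (hq.q_mem hv) (by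
          rw [h2]
          rw [h2] at h3
          have := hL.suc v h3
          omega)
        rw [h2] at h3 h4 h5
        have := hL.suc v h3
        omega
  exact fun v hv => key _ v hv le_rfl

theorem reach_mono {B B' : SimpleGraph X} {u v : X} (h : ∀ s t, B.Adj s t → B'.Reachable s t)
    (huv : B.Reachable u v) : B'.Reachable u v := by
  obtain ⟨w⟩ := huv
  induction w with
  | nil => exact Reachable.refl _
  | cons hxy _ ih => exact (h _ _ hxy).trans ih

/-- The step. -/
theorem step [Fintype X] (hL : Lv par L) {h : ℕ} (hh : ∀ v, L v ≤ h)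
    (hroot : ∀ v, Anc par v x)
    (hst : St par p₀ x Sk B p) {R : Set X} (hR : Clo par Sk B p R)
    (hmax : ∀ R', Clo par Sk B p R' → R ⊆ R' → R' = R) {a : X} (haR : a ∈ R) (haS : a ∈ Sk) :
    ∃ (Sk' : Finset X) (B' : SimpleGraph X) (p' : X → X), St par p₀ x Sk' B' p' ∧ Sk ⊆ Sk' ∧
      Sk'.card ≤ Sk.card + 3 * (Sk.card + h + 1) * (h + 1) ∧
      (∀ v, v ∈ Sk' → v ∉ Sk → v ∈ R) ∧
      ∀ R', Clo par Sk' B' p' R' → a ∉ R' ∧
        (((∀ v, v ∈ R' → v ∉ R) ∧ Clo par Sk B p R') ∨ R' ⊆ R) := by
  classical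
  obtain ⟨q, l, hq1, hq2, hq3, hq4, hq5, hq6, hq7⟩ := root_at B hst.tree.isAcyclic R a haR
    (fun u hu => hR.conn u hu a haR)
  have hq : Rtd B R a q l := ⟨hq1, haR, hq2, hq3, hq4, hq5, hq6, hq7⟩
  have hpa : rsf p R a ≠ a := by
    have h1 := hR.inn a haR haS
    rw [rsf_of haR h1.2]
    exact h1.1
  obtain ⟨f, C, B', p', hfR, hCR, hCc, htree, hag, hnew, hed, hfix, hout, hacy, hT⟩ :=
    exch hst.tree hq p (hst.acyc R hR) hpa
  let Sk' : Finset X := Finset.univ.filter fun v => v ∈ Sk ∨ ∃ c ∈ C, Anc par c v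
  have hSk' : ∀ v, v ∈ Sk' ↔ v ∈ Sk ∨ ∃ c ∈ C, Anc par c v := fun v => by simp [Sk']
  have hsub : Sk ⊆ Sk' := fun v hv => (hSk' v).2 (Or.inl hv)
  have hCsub : ∀ c, c ∈ C → c ∈ Sk' := fun c hc => (hSk' c).2 (Or.inr ⟨c, hc, Anc.refl _ _⟩)
  have hnewR : ∀ v, v ∈ Sk' → v ∉ Sk → v ∈ R := by
    intro v hv hvS
    rcases (hSk' v).1 hv with h1 | ⟨c, hc, n, rfl⟩
    · exact absurd h1 hvS
    · have key : ∀ n, par^[n] c ∈ R ∨ par^[n] c ∈ Sk := by
        intro n
        induction n with
        | zero => exact Or.inl (hCR c hc)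
        | succ n ih =>
          rw [Function.iterate_succ_apply']
          by_cases h1 : par^[n] c ∈ Sk
          · exact Or.inr (hst.up _ h1)
          · exact Or.inl ((hR.cell _ h1).1 (ih.resolve_right h1))
      exact (key n).resolve_right hvS
  -- classification of the new closed regions
  have hclass : ∀ R', Clo par Sk' B' p' R' →
      (((∀ v, v ∈ R' → v ∉ R) ∧ Clo par Sk B p R') ∨ R' ⊆ R) := by
    intro R' hR'
    by_cases hint : ∀ v, v ∈ R' → v ∉ R
    · left
      refine ⟨hint, ⟨fun v hv => ?_, fun u hu v hv => ?_, fun u hu huS => ?_⟩⟩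
      · by_cases hv' : v ∈ Sk'
        · have h1 := hnewR v hv' hv
          have h2 := (hR.cell v hv).1 h1
          exact ⟨fun h3 => absurd h1 (hint v h3), fun h3 => absurd h2 (hint _ h3)⟩
        · exact hR'.cell v hv'
      · refine reach_mono (B := rst B' R') (B' := rst B R') (fun s t hst' => ?_)
          (hR'.conn u hu v hv)
        refine Adj.reachable ⟨?_, hst'.2.1, hst'.2.2⟩
        rcases hnew s t hst'.1 with h1 | h1
        · exact h1
        · exact absurd h1.1 (hint s hst'.2.1)
      · have h1 := hR'.inn u hu (hsub huS)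
        rw [hout u (hint u hu)] at h1
        exact h1
    · right
      push Not at hint
      obtain ⟨w0, hw0', hw0⟩ := hint
      have hU : Clo par Sk B p (R ∪ R') := by
        have hmono1 : ∀ u v, (rst B R).Reachable u v → (rst B (R ∪ R')).Reachable u v :=
          fun u v h1 => reach_mono (B := rst B R) (B' := rst B (R ∪ R')) (fun s t h2 =>
            Adj.reachable ⟨h2.1, Or.inl h2.2.1, Or.inl h2.2.2⟩) h1
        have hmono2 : ∀ u v, (rst B' R').Reachable u v → (rst B (R ∪ R')).Reachable u v := by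
          intro u v h1
          refine reach_mono (B := rst B' R') (B' := rst B (R ∪ R')) (fun s t h2 => ?_) h1
          rcases hnew s t h2.1 with h3 | h3
          · exact Adj.reachable ⟨h3, Or.inr h2.2.1, Or.inr h2.2.2⟩
          · exact hmono1 _ _ (hR.conn s h3.1 t h3.2)
        have hto : ∀ u, u ∈ R ∪ R' → (rst B (R ∪ R')).Reachable u w0 := by
          rintro u (hu | hu)
          · exact hmono1 _ _ (hR.conn u hu w0 hw0)
          · exact hmono2 _ _ (hR'.conn u hu w0 hw0')
        refine ⟨fun v hv => ?_, fun u hu v hv => (hto u hu).trans (hto v hv).symm,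
          fun u hu huS => ?_⟩
        · by_cases hv' : v ∈ Sk'
          · have h1 := hnewR v hv' hv
            have h2 := (hR.cell v hv).1 h1
            exact ⟨fun _ => Or.inl h2, fun _ => Or.inl h1⟩
          · exact or_congr (hR.cell v hv) (hR'.cell v hv')
        · by_cases huR : u ∈ R
          · have h1 := hR.inn u huR huS
            exact ⟨h1.1, Or.inl h1.2⟩
          · have h1 := hR'.inn u (hu.resolve_left huR) (hsub huS)
            rw [hout u huR] at h1
            exact ⟨h1.1, Or.inr h1.2⟩
      have h1 := hmax _ hU Set.subset_union_left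
      rw [← h1]
      exact Set.subset_union_right
  refine ⟨Sk', B', p', ⟨hsub hst.root, fun v hv => ?_, htree, fun u v hu => ?_,
    fun u v hne => (hed u v hne).trans (hst.edges u v hne), fun v => (hfix v).trans (hst.fix v),
    fun R' hR' => ?_, ?_⟩, hsub, ?_, hnewR, fun R' hR' => ⟨fun haR' => ?_, hclass R' hR'⟩⟩
  · rcases (hSk' v).1 hv with h1 | ⟨c, hc, hc'⟩
    · exact hsub (hst.up v h1)
    · exact (hSk' _).2 (Or.inr ⟨c, hc, hc'.up⟩)
  · rw [hag u v (fun h1 => hu (hCsub u h1))]
    exact hst.agree u v (fun h1 => hu (hsub h1))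
  · rcases hclass R' hR' with ⟨h1, h2⟩ | h1
    · have h3 : rsf p' R' = rsf p R' := by
        funext v
        by_cases hv : v ∈ R'
        · simp only [rsf, hout v (h1 v hv)]
        · rw [rsf_not (fun h => hv h.1), rsf_not (fun h => hv h.1)]
      rw [h3]
      exact hst.acyc R' h2
    · refine hacy.mono fun v => ?_
      by_cases hv : v ∈ R' ∧ p' v ∈ R'
      · right
        rw [rsf_of hv.1 hv.2, rsf_of (h1 hv.1) (h1 hv.2)]
      · left
        exact rsf_not hv
  · -- cells
    obtain ⟨φ, hφ⟩ := hst.acyc'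
    obtain ⟨ψ, hψ⟩ := hacy
    refine ⟨fun v => if v ∈ R then ψ v else φ v, fun v hv ⟨u, hu, h1, h2⟩ => ?_⟩
    have hcell : ∀ w, Anc (cutf par (Sk' : Set X)) w u → (w ∈ R ↔ u ∈ R) := by
      rintro w ⟨n, hn⟩
      induction n generalizing w with
      | zero => rw [show w = u from hn]
      | succ n ih =>
        by_cases hw : w ∈ Sk'
        · have h3 : cutf par (Sk' : Set X) w = w := if_pos hw
          have h4 : (cutf par (Sk' : Set X))^[n + 1] w = w := Function.iterate_fixed h3 _
          rw [h4] at hn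
          rw [hn]
        · have h3 : cutf par (Sk' : Set X) w = par w := if_neg hw
          have h4 := ih (cutf par (Sk' : Set X) w) hn
          rw [h3] at h4
          rw [← h4]
          exact hR.cell w (fun h5 => hw (hsub h5))
    have h3 := hcell v h1
    have h4 := hcell (p' v) h2
    by_cases hvR : v ∈ R
    · have h5 : p' v ∈ R := h4.2 (h3.1 hvR)
      simp only [hvR, h5, if_true]
      have h6 : rsf p' R v = p' v := rsf_of hvR h5
      have h7 := hψ v (by rw [h6]; exact hv)
      rwa [h6] at h7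
    · have h5 : p' v ∉ R := fun h6 => hvR (h3.2 (h4.1 h6))
      simp only [hvR, h5, if_false]
      have h6 : p' v = p v := hout v hvR
      rw [h6] at hv h2 ⊢
      refine hφ v hv ?_
      -- the old cell
      have hmono : ∀ w, Anc (cutf par (Sk' : Set X)) w u → Anc (cutf par (Sk : Set X)) w u := by
        rintro w ⟨n, hn⟩
        induction n generalizing w with
        | zero => exact ⟨0, hn⟩
        | succ n ih =>
          by_cases hw : w ∈ Sk'
          · have h3 : cutf par (Sk' : Set X) w = w := if_pos hw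
            have h4 : (cutf par (Sk' : Set X))^[n + 1] w = w := Function.iterate_fixed h3 _
            rw [h4] at hn
            rw [hn]
            exact Anc.refl _ _
          · have h3 : cutf par (Sk' : Set X) w = par w := if_neg hw
            have h7 : cutf par (Sk : Set X) w = par w := if_neg (fun h8 => hw (hsub h8))
            have h4 := ih (cutf par (Sk' : Set X) w) hn
            rw [h3, ← h7] at h4
            exact Anc.of_step h4
      obtain ⟨r, hr1, hr2⟩ := (hL.acy.mono (g := cutf par (Sk : Set X)) (fun w => by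
        by_cases hw : w ∈ (Sk : Set X)
        · exact Or.inl (if_pos hw)
        · exact Or.inr (if_neg hw))).exists_root u
      refine ⟨r, ?_, (hmono v h1).trans hr1, (hmono _ h2).trans hr1⟩
      by_contra hr
      have h8 : cutf par (Sk : Set X) r = par r := if_neg hr
      rw [h8] at hr2
      have h9 := (hroot r).of_fix hr2
      rw [← h9] at hr
      exact hr hst.root
  · -- size
    have h1 : Sk' ⊆ Sk ∪ C.biUnion fun c => Finset.univ.filter fun v => Anc par c v := by
      intro v hv
      rcases (hSk' v).1 hv with h2 | ⟨c, hc, hc'⟩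
      · exact Finset.mem_union_left _ h2
      · refine Finset.mem_union_right _ (Finset.mem_biUnion.2 ⟨c, hc, ?_⟩)
        simp [hc']
    have h2 := Finset.card_le_card h1
    have h3 := Finset.card_union_le Sk (C.biUnion fun c => Finset.univ.filter fun v => Anc par c v)
    have h4 : (C.biUnion fun c => Finset.univ.filter fun v => Anc par c v).card ≤
        C.card * (h + 1) := by
      refine Finset.card_biUnion_le_card_mul _ _ _ fun c _ => ?_
      have h5 := hL.card_anc c (Finset.univ.filter fun v => Anc par c v) (by simp)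
      have h6 := hh c
      omega
    have h5 : C.card ≤ 3 * (Sk.card + h + 1) := by
      have h6 := lev_le hL hh hst hq haS f hfR
      have h7 := hh f
      omega
    have h6 : C.card * (h + 1) ≤ 3 * (Sk.card + h + 1) * (h + 1) := Nat.mul_le_mul_right _ h5
    omega
  · -- `a` is not in a closed region
    have h1 : R' ⊆ R := by
      rcases hclass R' hR' with ⟨h1, -⟩ | h1
      · exact absurd haR (h1 a haR')
      · exact h1
    exact hT R' h1 haR' fun u hu huC => hR'.inn u hu (hCsub u huC)

end

end Pool.Agent.L7h33.BD
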