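import Pool.Agent.L7h33.BD.Defs

/-! # Recursion on the depth -/

set_option autoImplicit false

namespace Pool.Agent.L7h33.BD

open Finset

theorem SameT.refl {V : Type*} {f : V → V} (h : Acy f) (v : V) : SameT f v v := by
  obtain ⟨r, h1, h2⟩ := h.exists_root v
  exact ⟨r, h2, h1, h1⟩

theorem SameT.symm {V : Type*} {f : V → V} {u v : V} (h : SameT f u v) : SameT f v u := by
  obtain ⟨r, h1, h2, h3⟩ := h
  exact ⟨r, h1, h3, h2⟩

theorem SameT.trans {V : Type*} {f : V → V} {u v w : V} (h : SameT f u v) (h' : SameT f v w) :
    SameT f u w := by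
  obtain ⟨r, h1, h2, h3⟩ := h
  obtain ⟨r', h1', h2', h3'⟩ := h'
  have := root_unique h3 h1 h2' h1'
  subst this
  exact ⟨r, h1, h2, h3'⟩

theorem SameT.of_anc {V : Type*} {f : V → V} (h : Acy f) {u v : V} (h1 : Anc f u v) :
    SameT f u v := by
  obtain ⟨r, h2, h3⟩ := h.exists_root v
  exact ⟨r, h3, h1.trans h2, h2⟩

theorem inn_eq {V : Type*} {par p : V → V} {v : V} (h : SameT par v (p v)) :
    inn par p v = p v := by
  classical
  exact if_pos h

theorem inn_not {V : Type*} {par p : V → V} {v : V} (h : ¬ SameT par v (p v)) :
    inn par p v = v := by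
  classical
  exact if_neg h

/-- Recursion. -/
theorem thmA_of_forTerm (hT : ForTerm) : ThmA := by
  classical
  intro h
  induction h with
  | zero =>
    refine ⟨0, 0, fun X _ par p hdp _ => ⟨par, p, ?_, hdp, ?_⟩⟩
    · exact ⟨fun v => Iff.rfl, fun v => SameT.of_anc (Acy.of_dp hdp) (Anc.step par v),
        fun v => Iff.rfl, fun v _ => rfl, fun v h => h, fun u v _ => Iff.rfl⟩
    · intro a ha hanc
      exfalso
      obtain ⟨φ, h1, h2⟩ := hdp
      have hid : ∀ v, par v = v := by
        intro v
        by_contra hv
        have := h2 v hv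
        have := h1 v
        omega
      exact ha (hanc.of_fix (hid _)).symm
  | succ h ih =>
    obtain ⟨N₁, hN₁⟩ := hT (h + 1)
    obtain ⟨N₂, m₂, hN₂⟩ := ih
    refine ⟨N₁ + N₂ + 1, max N₁ m₂, fun X _ par p hdp hacy => ?_⟩
    obtain ⟨Sk, par₁, p₁, ht⟩ := hN₁ X par p hdp hacy
    obtain ⟨L, hL, hLh⟩ := hdp.exists_lv
    let par₀ : X → X := fun v => if v ∈ Sk ∨ par v ∈ Sk then v else par v
    have h0a : ∀ v, (v ∈ Sk ∨ par v ∈ Sk) → par₀ v = v := fun v hv => if_pos hv
    have h0b : ∀ v, v ∉ Sk → par v ∉ Sk → par₀ v = par v := fun v h1 h2 =>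
      if_neg (by rintro (h3 | h3); exacts [h1 h3, h2 h3])
    have h0ne : ∀ v, par₀ v ≠ v → v ∉ Sk ∧ par v ∉ Sk ∧ par₀ v = par v := by
      intro v hv
      have h1 : v ∉ Sk := fun h1 => hv (h0a v (Or.inl h1))
      have h2 : par v ∉ Sk := fun h2 => hv (h0a v (Or.inr h2))
      exact ⟨h1, h2, h0b v h1 h2⟩
    have h0fix : ∀ v, par₀ v = v → v ∉ Sk → par v ∈ Sk := by
      intro v h1 h2
      by_contra h3
      rw [h0b v h2 h3] at h1
      exact h2 (ht.root v h1)
    have hL1 : ∀ v, v ∉ Sk → 1 ≤ L v := by
      intro v hv
      have : par v ≠ v := fun h1 => hv (ht.root v h1)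
      have := hL.suc v this
      omega
    have hdp0 : Dp par₀ h := by
      refine ⟨fun v => L v - 1, fun v => ?_, fun v hv => ?_⟩
      · have := hLh v
        show L v - 1 ≤ h
        omega
      · obtain ⟨h1, h2, h3⟩ := h0ne v hv
        rw [h3] at hv ⊢
        have h4 := hL.suc v hv
        have h5 := hL1 _ h2
        show L (par v) - 1 < L v - 1
        omega
    have hacy0 : Acy par₀ := Acy.of_dp hdp0
    -- paths of `par₀` avoid the skeleton
    have h0mem : ∀ v w, Anc par₀ v w → v ∉ Sk → w ∉ Sk := by
      rintro v w ⟨n, rfl⟩ hv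
      induction n with
      | zero => exact hv
      | succ n ih =>
        rw [Function.iterate_succ_apply']
        by_cases h1 : par₀ (par₀^[n] v) = par₀^[n] v
        · rw [h1]
          exact ih
        · have h2 := h0ne _ h1
          rw [h2.2.2]
          exact h2.2.1
    have h0iso : ∀ v w, Anc par₀ v w → v ∈ Sk → w = v := fun v w h1 h2 =>
      h1.of_fix (h0a v (Or.inl h2))
    have h0sameiso : ∀ v w, SameT par₀ v w → v ∈ Sk → w = v := by
      rintro v w ⟨r, h1, h2, h3⟩ hv
      have h4 := h0iso v r h2 hv
      subst h4
      by_contra h5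
      rcases h3.eq_or with h6 | h6
      · exact h5 h6
      · by_cases hw : w ∈ Sk
        · exact h5 (h0iso w r h3 hw).symm
        · exact h0mem w r h3 hw hv
    have h0par : ∀ v w, Anc par₀ v w → Anc par v w := by
      rintro v w ⟨n, rfl⟩
      induction n with
      | zero => exact Anc.refl _ _
      | succ n ih =>
        rw [Function.iterate_succ_apply']
        by_cases h1 : par₀ (par₀^[n] v) = par₀^[n] v
        · rw [h1]
          exact ih
        · rw [(h0ne _ h1).2.2]
          exact ih.up
    have hsame0 : ∀ v w, SameT par₀ v w → SameT par v w := by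
      rintro v w ⟨r, h1, h2, h3⟩
      exact (SameT.of_anc hL.acy (h0par _ _ h2)).trans (SameT.of_anc hL.acy (h0par _ _ h3)).symm
    have h0cut : ∀ v w, Anc par₀ v w → Anc (cutf par Sk) v w := by
      rintro v w ⟨n, rfl⟩
      induction n with
      | zero => exact Anc.refl _ _
      | succ n ih =>
        rw [Function.iterate_succ_apply']
        by_cases h1 : par₀ (par₀^[n] v) = par₀^[n] v
        · rw [h1]
          exact ih
        · have h2 := h0ne _ h1
          have h3 : cutf par Sk (par₀^[n] v) = par (par₀^[n] v) := if_neg h2.1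
          rw [h2.2.2, ← h3]
          exact ih.up
    have hacyi : Acy (inn par₀ p₁) := by
      obtain ⟨φ, hφ⟩ := ht.acyc
      refine ⟨φ, fun v hv => ?_⟩
      by_cases h1 : SameT par₀ v (p₁ v)
      · rw [inn_eq h1] at hv ⊢
        refine hφ v hv ?_
        have hvS : v ∉ Sk := fun h2 => hv (h0sameiso v _ h1 h2)
        obtain ⟨r, h2, h3, h4⟩ := h1
        have hrS : r ∉ Sk := h0mem v r h3 hvS
        have h5 := h0fix r h2 hrS
        have h6 : cutf par Sk r = par r := if_neg hrS
        refine ⟨par r, h5, ?_, ?_⟩
        · rw [← h6]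
          exact (h0cut _ _ h3).up
        · rw [← h6]
          exact (h0cut _ _ h4).up
      · exact absurd (inn_not h1) hv
    obtain ⟨par₂, p₂, hrea, hdp2, hch⟩ := hN₂ X par₀ p₁ hdp0 hacyi
    let ps : X → X := fun v => if par₀ v = v then par₁ v else par₂ v
    have hs1 : ∀ v, par₀ v = v → ps v = par₁ v := fun v hv => if_pos hv
    have hs2 : ∀ v, par₀ v ≠ v → ps v = par₂ v := fun v hv => if_neg hv
    have hsSk : ∀ v, v ∈ Sk → ps v = par₁ v := fun v hv => hs1 v (h0a v (Or.inl hv))
    have hsSkmem : ∀ v, v ∈ Sk → ps v ∈ Sk := fun v hv => by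
      rw [hsSk v hv]
      exact ht.up' v hv
    have h2mem : ∀ v, v ∉ Sk → par₂ v ∉ Sk := by
      intro v hv h1
      have h2 := h0sameiso (par₂ v) v (hrea.same v).symm h1
      exact hv (h2 ▸ h1)
    have hsoff : ∀ v, v ∉ Sk → par₀ v = v → ps v = par v ∧ par v ∈ Sk := by
      intro v h1 h2
      rw [hs1 v h2, ht.off v h1]
      exact ⟨rfl, h0fix v h2 h1⟩
    obtain ⟨φ₁, hφ₁, hφ₁'⟩ := ht.dp
    obtain ⟨φ₂, hφ₂, hφ₂'⟩ := hdp2
    refine ⟨ps, p₂, ⟨fun v => ?_, fun v => ?_, fun v => (hrea.pfix v).trans (ht.rea.pfix v),
      fun v hv => ?_, fun v hv => ?_, fun u v hne => ?_⟩,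
      ⟨fun v => if v ∈ Sk then φ₁ v else φ₂ v + N₁ + 1, fun v => ?_, fun v hv => ?_⟩, ?_⟩
    · -- fix
      by_cases h1 : par₀ v = v
      · rw [hs1 v h1]
        exact ht.rea.fix v
      · rw [hs2 v h1, hrea.fix v]
        refine iff_of_false h1 ?_
        rw [← (h0ne v h1).2.2]
        exact h1
    · -- same
      by_cases h1 : par₀ v = v
      · rw [hs1 v h1]
        exact ht.rea.same v
      · rw [hs2 v h1]
        exact hsame0 _ _ (hrea.same v)
    · -- pout
      have h1 := ht.rea.pout v hv
      rw [hrea.pout v (fun h2 => hv (h1 ▸ hsame0 _ _ h2)), h1]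
    · -- pin
      have h1 := ht.rea.pin v hv
      by_cases h2 : SameT par₀ v (p₁ v)
      · exact hsame0 _ _ (hrea.pin v h2)
      · rw [hrea.pout v h2]
        exact h1
    · -- edges
      have e1 := ht.rea.edges u v hne
      have e2 := hrea.edges u v hne
      have hfw : ∀ u v, u ≠ v → ps u = v → par₁ u = v ∨ par₂ u = v := by
        intro u v _ h1
        by_cases h2 : par₀ u = u
        · exact Or.inl ((hs1 u h2).symm.trans h1)
        · exact Or.inr ((hs2 u h2).symm.trans h1)
      have h2s : ∀ u v, u ≠ v → par₂ u = v → ps u = v := by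
        intro u v hne h1
        rw [hs2 u (fun h2 => ?_), h1]
        rw [(hrea.fix u).2 h2] at h1
        exact hne h1
      have h1s : ∀ u v, u ≠ v → par₁ u = v → ps u = v ∨ par₀ u = v := by
        intro u v hne h1
        by_cases h2 : par₀ u = u
        · exact Or.inl ((hs1 u h2).trans h1)
        · right
          have h3 := h0ne u h2
          rw [h3.2.2, ← ht.off u h3.1, h1]
      have h0p : ∀ u v, u ≠ v → par₀ u = v → par u = v := by
        intro u v hne h1
        have h2 : par₀ u ≠ u := by
          rw [h1]
          exact hne.symm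
        rw [← (h0ne u h2).2.2, h1]
      constructor
      · rintro (h1 | h1 | h1 | h1)
        · rcases hfw u v hne h1 with h2 | h2
          · exact e1.1 (Or.inl h2)
          · rcases e2.1 (Or.inl h2) with h3 | h3 | h3
            · exact Or.inl (h0p u v hne h3)
            · exact Or.inr (Or.inl (h0p v u hne.symm h3))
            · exact e1.1 (Or.inr (Or.inr h3))
        · rcases hfw v u hne.symm h1 with h2 | h2
          · exact e1.1 (Or.inr (Or.inl h2))
          · rcases e2.1 (Or.inr (Or.inl h2)) with h3 | h3 | h3
            · exact Or.inl (h0p u v hne h3)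
            · exact Or.inr (Or.inl (h0p v u hne.symm h3))
            · exact e1.1 (Or.inr (Or.inr h3))
        · rcases e2.1 (Or.inr (Or.inr (Or.inl h1))) with h3 | h3 | h3
          · exact Or.inl (h0p u v hne h3)
          · exact Or.inr (Or.inl (h0p v u hne.symm h3))
          · exact e1.1 (Or.inr (Or.inr h3))
        · rcases e2.1 (Or.inr (Or.inr (Or.inr h1))) with h3 | h3 | h3
          · exact Or.inl (h0p u v hne h3)
          · exact Or.inr (Or.inl (h0p v u hne.symm h3))
          · exact e1.1 (Or.inr (Or.inr h3))
      · intro h1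
        have hb : (par₀ u = v ∨ par₀ v = u ∨ p₁ u = v ∨ p₁ v = u) →
            (ps u = v ∨ ps v = u ∨ p₂ u = v ∨ p₂ v = u) := by
          intro h2
          rcases e2.2 h2 with h3 | h3 | h3
          · exact Or.inl (h2s u v hne h3)
          · exact Or.inr (Or.inl (h2s v u hne.symm h3))
          · exact Or.inr (Or.inr h3)
        rcases e1.2 h1 with h2 | h2 | h2
        · rcases h1s u v hne h2 with h3 | h3
          · exact Or.inl h3
          · exact hb (Or.inl h3)
        · rcases h1s v u hne.symm h2 with h3 | h3
          · exact Or.inr (Or.inl h3)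
          · exact hb (Or.inr (Or.inl h3))
        · exact hb (Or.inr (Or.inr h2))
    · -- potential bound
      by_cases h1 : v ∈ Sk
      · simp only [h1, if_true]
        have := hφ₁ v
        omega
      · simp only [h1, if_false]
        have := hφ₂ v
        omega
    · -- potential
      by_cases h1 : v ∈ Sk
      · have h2 := hsSkmem v h1
        simp only [h1, h2, if_true]
        rw [hsSk v h1] at hv ⊢
        exact hφ₁' v hv
      · by_cases h2 : par₀ v = v
        · obtain ⟨h3, h4⟩ := hsoff v h1 h2
          rw [h3]
          simp only [h1, h4, if_true, if_false]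
          have := hφ₁ (par v)
          omega
        · rw [hs2 v h2] at hv ⊢
          have h3 := h2mem v h1
          simp only [h1, h3, if_false]
          have := hφ₂' v hv
          omega
    · -- chains
      -- inside the pieces
      have hK2a : ∀ w a, a ∉ Sk → Anc ps w a → Anc par₂ w a := by
        rintro w a ha ⟨n, hn⟩
        induction n generalizing w with
        | zero => exact ⟨0, hn⟩
        | succ n ih =>
          have hnot : ∀ k s, s ∈ Sk → ps^[k] s ∈ Sk := by
            intro k
            induction k with
            | zero => exact fun s hs => hs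
            | succ k ihk =>
              intro s hs
              rw [Function.iterate_succ_apply']
              exact hsSkmem _ (ihk s hs)
          have hw : w ∉ Sk := fun h1 => ha (hn ▸ hnot _ w h1)
          have hw' : ps w ∉ Sk := fun h1 => ha (hn ▸ hnot n (ps w) h1)
          have h1 : par₀ w ≠ w := fun h1 => by
            obtain ⟨h2, h3⟩ := hsoff w hw h1
            rw [h2] at hw'
            exact hw' h3
          have h2 := ih (ps w) hn
          rw [hs2 w h1] at h2
          exact Anc.of_step h2
      have hK2b : ∀ w a, Anc par₂ w a → Anc ps w a := by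
        rintro w a ⟨n, rfl⟩
        induction n with
        | zero => exact Anc.refl _ _
        | succ n ih =>
          rw [Function.iterate_succ_apply']
          by_cases h1 : par₀ (par₂^[n] w) = par₂^[n] w
          · rw [(hrea.fix _).2 h1]
            exact ih
          · rw [← hs2 _ h1]
            exact ih.up
      -- skeleton
      have hK1Sk : ∀ w s, w ∈ Sk → (Anc ps w s ↔ Anc par₁ w s) := by
        have key : ∀ n w, w ∈ Sk → ps^[n] w = par₁^[n] w ∧ par₁^[n] w ∈ Sk := by
          intro n
          induction n with
          | zero => exact fun w hw => ⟨rfl, hw⟩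
          | succ n ih =>
            intro w hw
            have h1 := ih w hw
            rw [Function.iterate_succ_apply', Function.iterate_succ_apply', h1.1]
            exact ⟨hsSk _ h1.2, ht.up' _ h1.2⟩
        intro w s hw
        constructor
        · rintro ⟨n, hn⟩
          exact ⟨n, by rw [← (key n w hw).1, hn]⟩
        · rintro ⟨n, hn⟩
          exact ⟨n, by rw [(key n w hw).1, hn]⟩
      have hK1 : ∀ w s, s ∈ Sk → (Anc ps w s ↔ Anc par₁ w s) := by
        intro w s hs
        by_cases hw : w ∈ Sk
        · exact hK1Sk w s hw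
        · obtain ⟨y, hy1, hy2⟩ := hacy0.exists_root w
          have hyS : y ∉ Sk := h0mem w y hy1 hw
          have hy3 := h0fix y hy2 hyS
          -- `par₁` follows `par₀`
          have hstep1 : ∀ w, w ∉ Sk → Anc par₀ w y → (Anc par₁ w s ↔ Anc par₁ (par y) s) := by
            rintro w hw ⟨n, hn⟩
            induction n generalizing w with
            | zero =>
              have hwy : w = y := hn
              rw [hwy, anc_step_iff (f := par₁) (show y ≠ s from fun h1 => hyS (h1 ▸ hs)),
                ht.off y hyS]
            | succ n ih =>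
              by_cases h1 : par₀ w = w
              · have h2 : par₀^[n + 1] w = w := Function.iterate_fixed h1 _
                rw [h2] at hn
                rw [hn, anc_step_iff (f := par₁) (show y ≠ s from fun h1 => hyS (h1 ▸ hs)),
                  ht.off y hyS]
              · have h2 := h0ne w h1
                have h3 := ih (par₀ w) (by rw [h2.2.2]; exact h2.2.1) hn
                rw [← h3, anc_step_iff (f := par₁) (show w ≠ s from fun h1 => hw (h1 ▸ hs)),
                  ht.off w hw, h2.2.2]
          -- `ps` follows `par₂`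
          obtain ⟨y', hy1', hy2'⟩ := (show Acy par₂ from ⟨φ₂, hφ₂'⟩).exists_root w
          have hsame2 : ∀ w w', Anc par₂ w w' → SameT par₀ w w' := by
            rintro w w' ⟨n, rfl⟩
            induction n with
            | zero => exact SameT.refl hacy0 _
            | succ n ih =>
              rw [Function.iterate_succ_apply']
              exact ih.trans (hrea.same _)
          have hyy : y' = y := by
            have h1 := hsame2 w y' hy1'
            have h2 := (hrea.fix y').1 hy2'
            obtain ⟨r, h3, h4, h5⟩ := h1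
            rw [← h5.of_fix h2]
            exact root_unique h4 h3 hy1 hy2
          rw [hyy] at hy1'
          have hstep2 : ∀ w, w ∉ Sk → Anc par₂ w y → (Anc ps w s ↔ Anc ps (par y) s) := by
            rintro w hw ⟨n, hn⟩
            have hbase : Anc ps y s ↔ Anc ps (par y) s := by
              rw [anc_step_iff (f := ps) (show y ≠ s from fun h1 => hyS (h1 ▸ hs)),
                (hsoff y hyS hy2).1]
            induction n generalizing w with
            | zero =>
              have hwy : w = y := hn
              rw [hwy]
              exact hbase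
            | succ n ih =>
              by_cases h1 : par₀ w = w
              · have h2 : par₂^[n + 1] w = w := Function.iterate_fixed ((hrea.fix w).2 h1) _
                rw [h2] at hn
                rw [hn]
                exact hbase
              · have h3 : Anc ps (par₂ w) s ↔ Anc ps (par y) s := ih (par₂ w) (h2mem w hw) hn
                have h4 := anc_step_iff (f := ps) (show w ≠ s from fun h1 => hw (h1 ▸ hs))
                rw [hs2 w h1] at h4
                exact h4.trans h3
          rw [hstep1 w hw hy1, hstep2 w hw hy1']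
          exact hK1Sk _ s hy3
      have hpS : ∀ v, v ∈ Sk → p₂ v = p₁ v := by
        intro v hv
        by_cases h1 : SameT par₀ v (p₁ v)
        · have h2 := h0sameiso v _ h1 hv
          rw [h2]
          exact (hrea.pfix v).2 h2
        · exact hrea.pout v h1
      intro a ha hanc
      by_cases haS : a ∈ Sk
      · rw [hpS a haS] at ha hanc
        rw [hK1 _ a haS] at hanc
        obtain ⟨j, hj, x, hx0, hxS, hxst, hxex⟩ := ht.chain a haS ha hanc
        refine ⟨j, hj.trans (le_max_left _ _), x, hx0, fun i hi => ?_, ?_⟩
        · rw [hpS _ (hxS i hi.le), hK1 _ _ (hxS (i + 1) hi), hK1 _ _ haS]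
          exact hxst i hi
        · rw [hpS _ (hxS j le_rfl), hK1 _ _ haS]
          exact hxex
      · obtain ⟨j, hj, x, hx0, hxst, hxex⟩ := hch a ha (hK2a _ a haS hanc)
        refine ⟨j, hj.trans (le_max_right _ _), x, hx0, fun i hi => ?_, ?_⟩
        · obtain ⟨h1, h2, h3, h4⟩ := hxst i hi
          exact ⟨h1, hK2b _ _ h2, hK2b _ _ h3, h4⟩
        · rcases hxex with h1 | h1
          · exact Or.inl h1
          · exact Or.inr fun h2 => h1 (hK2a _ a haS h2)

end Pool.Agent.L7h33.BD
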