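import Pool.Agent.L7h33.BD.Fun2

/-! # Selection of the path -/

set_option autoImplicit false

namespace Pool.Agent.L7h33.BD

open Finset

variable {V : Type*}

/-- `m` is the lowest common ancestor of `v` and `f`. -/
def IsMt (q : V → V) (v f m : V) : Prop :=
  Anc q v m ∧ Anc q f m ∧ ∀ m', Anc q v m' → Anc q f m' → Anc q m m'

/-- The lowest common ancestor. -/
noncomputable def mt (q : V → V) (v f : V) : V := by
  classical exact if h : ∃ m, IsMt q v f m then h.choose else v

theorem IsMt.unique {q : V → V} {l : V → ℕ} (hq : Lv q l) {v f m m' : V} (h : IsMt q v f m)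
    (h' : IsMt q v f m') : m = m' :=
  hq.antisymm (h.2.2 m' h'.1 h'.2.1) (h'.2.2 m h.1 h.2.1)

theorem exists_isMt [Fintype V] {q : V → V} {l : V → ℕ} (hq : Lv q l) {v f a : V}
    (h1 : Anc q v a) (h2 : Anc q f a) : ∃ m, IsMt q v f m := by
  classical
  obtain ⟨m, hm, hmax⟩ := Finset.exists_max_image
    ((Finset.univ : Finset V).filter fun m => Anc q v m ∧ Anc q f m) l ⟨a, by simp [h1, h2]⟩
  simp only [Finset.mem_filter, Finset.mem_univ, true_and] at hm hmax
  exact ⟨m, hm.1, hm.2, fun m' h3 h4 => hq.anc_of_le hm.1 h3 (hmax m' ⟨h3, h4⟩)⟩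

theorem mt_spec [Fintype V] {q : V → V} {l : V → ℕ} (hq : Lv q l) {v f a : V}
    (h1 : Anc q v a) (h2 : Anc q f a) : IsMt q v f (mt q v f) := by
  classical
  have h := exists_isMt hq h1 h2
  rw [mt, dif_pos h]
  exact h.choose_spec

theorem mt_eq {q : V → V} {l : V → ℕ} (hq : Lv q l) {v f m : V}
    (h : IsMt q v f m) : mt q v f = m := by
  classical
  have h' : ∃ m, IsMt q v f m := ⟨m, h⟩
  rw [mt, dif_pos h']
  exact h'.choose_spec.unique hq h

/-- Not below the branching point. -/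
theorem isMt_transfer {q : V → V} {f f' M v m : V} (hM : IsMt q f' f M)
    (hv : ¬ Anc q v M) (h : IsMt q v f m) : IsMt q v f' m := by
  have hm : Anc q M m := by
    rcases h.2.1.comparable hM.2.1 with h1 | h1
    · exact absurd (h.1.trans h1) hv
    · exact h1
  refine ⟨h.1, hM.1.trans hm, fun m' h1 h2 => ?_⟩
  refine h.2.2 m' h1 ?_
  rcases h2.comparable hM.1 with h3 | h3
  · exact absurd (h1.trans h3) hv
  · exact hM.2.1.trans h3

theorem IsMt.symm {q : V → V} {v f m : V} (h : IsMt q v f m) : IsMt q f v m :=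
  ⟨h.2.1, h.1, fun m' h1 h2 => h.2.2 m' h2 h1⟩

/-- Below the branching point. -/
theorem isMt_below {q : V → V} {l : V → ℕ} (hq : Lv q l) {f f' M v m m' : V}
    (hM : IsMt q f' f M) (hv : Anc q v M) (h : IsMt q v f m) (h' : IsMt q v f' m') :
    m = M ∨ m' = M := by
  have h1 : Anc q m M := h.2.2 M hv hM.2.1
  have h2 : Anc q m' M := h'.2.2 M hv hM.1
  rcases h.1.comparable h'.1 with h3 | h3
  · right
    exact hq.antisymm h2 (hM.2.2 m' h'.2.1 (h.2.1.trans h3))
  · left
    exact hq.antisymm h1 (hM.2.2 m (h'.2.1.trans h3) h.2.1)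

/-- Token-closed sets. -/
def TC (q pR : V → V) (f : V) (Y : Finset V) : Prop :=
  (∀ z ∈ Y, Anc q f z ∧ z ≠ f) ∧ ∀ z ∈ Y, ∀ t, mt q (pR^[t] z) f ∈ Y

/-- A periodic point. -/
theorem exists_periodic [Fintype V] (θ : V → V) (X : Finset V) (hX : X.Nonempty)
    (hθ : ∀ z ∈ X, θ z ∈ X) : ∃ z ∈ X, ∃ n, 1 ≤ n ∧ θ^[n] z = z := by
  obtain ⟨z, hz⟩ := hX
  obtain ⟨i, j, hne, heq⟩ := Finite.exists_ne_map_eq_of_infinite (fun n : ℕ => θ^[n] z)
  have hmem : ∀ n, θ^[n] z ∈ X := by
    intro n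
    induction n with
    | zero => exact hz
    | succ n ih =>
      rw [Function.iterate_succ_apply']
      exact hθ _ ih
  rcases lt_or_gt_of_ne hne with h | h
  · refine ⟨θ^[i] z, hmem i, j - i, by omega, ?_⟩
    rw [← Function.iterate_add_apply, Nat.sub_add_cancel h.le]
    exact heq.symm
  · refine ⟨θ^[j] z, hmem j, i - j, by omega, ?_⟩
    rw [← Function.iterate_add_apply, Nat.sub_add_cancel h.le]
    exact heq

/-- The selection lemma. -/
theorem sel [Fintype V] {q pR : V → V} {l : V → ℕ} (hq : Lv q l) (R : Set V) (a : V)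
    (ha : a ∈ R) (hR : ∀ v ∈ R, Anc q v a) (hRq : ∀ v ∈ R, q v ∈ R) (hpR : ∀ v ∈ R, pR v ∈ R)
    (hacy : Acy pR) :
    ∃ f ∈ R, pR f = f ∧ (∀ w, Anc q f w → w ≠ f → pR w ≠ w) ∧
      ∀ Y : Finset V, Y.Nonempty → (∀ z ∈ Y, Anc q f z ∧ z ≠ f) →
        ∃ z ∈ Y, ∃ t, mt q (pR^[t] z) f ∉ Y := by
  classical
  have hRanc : ∀ v w, v ∈ R → Anc q v w → w ∈ R := by
    rintro v w hv ⟨n, rfl⟩
    induction n with
    | zero => exact hv
    | succ n ih =>
      rw [Function.iterate_succ_apply']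
      exact hRq _ ih
  have hRit : ∀ v t, v ∈ R → pR^[t] v ∈ R := by
    intro v t hv
    induction t with
    | zero => exact hv
    | succ n ih =>
      rw [Function.iterate_succ_apply']
      exact hpR _ ih
  have hmt : ∀ v f, v ∈ R → f ∈ R → IsMt q v f (mt q v f) := fun v f hv hf =>
    mt_spec hq (hR v hv) (hR f hf)
  -- the roots of `pR`
  choose τ hτ1 hτ2 using hacy.exists_root
  have hτR : ∀ v, v ∈ R → τ v ∈ R := by
    intro v hv
    obtain ⟨n, hn⟩ := hτ1 v
    rw [← hn]
    exact hRit v n hv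
  -- first tops
  let FT : Finset V := Finset.univ.filter fun f => f ∈ R ∧ pR f = f ∧
    ∀ w, Anc q f w → w ≠ f → pR w ≠ w
  have hFT : ∀ f, f ∈ FT ↔ f ∈ R ∧ pR f = f ∧ ∀ w, Anc q f w → w ≠ f → pR w ≠ w := by
    intro f
    simp [FT]
  have hfirst : ∀ t, t ∈ R → pR t = t → ∃ f ∈ FT, Anc q t f := by
    intro t ht htt
    obtain ⟨f, hf, hmin⟩ := Finset.exists_min_image
      ((Finset.univ : Finset V).filter fun f => Anc q t f ∧ pR f = f) l
      ⟨t, by simp [htt, Anc.refl]⟩
    simp only [Finset.mem_filter, Finset.mem_univ, true_and] at hf hmin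
    refine ⟨f, (hFT f).2 ⟨hRanc t f ht hf.1, hf.2, fun w hw hne hww => ?_⟩, hf.1⟩
    have h1 := hmin w ⟨hf.1.trans hw, hww⟩
    exact hne (hq.anc_eq hw h1).symm
  have hFTne : FT.Nonempty := by
    obtain ⟨f, hf, -⟩ := hfirst (τ a) (hτR a ha) (hτ2 a)
    exact ⟨f, hf⟩
  -- maximal token-closed set
  let Xm : V → Finset V := fun f => Finset.univ.filter fun z => ∃ Y, TC q pR f Y ∧ z ∈ Y
  have hXm : ∀ f z, z ∈ Xm f ↔ ∃ Y, TC q pR f Y ∧ z ∈ Y := fun f z => by simp [Xm]
  have hXTC : ∀ f, TC q pR f (Xm f) := by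
    intro f
    refine ⟨fun z hz => ?_, fun z hz t => ?_⟩
    · obtain ⟨Y, hY, hzY⟩ := (hXm f z).1 hz
      exact hY.1 z hzY
    · obtain ⟨Y, hY, hzY⟩ := (hXm f z).1 hz
      exact (hXm f _).2 ⟨Y, hY, hY.2 z hzY t⟩
  have hXmax : ∀ f Y, TC q pR f Y → Y ⊆ Xm f := fun f Y hY z hz => (hXm f z).2 ⟨Y, hY, hz⟩
  set L := Finset.univ.sup l with hL
  have hlL : ∀ v, l v ≤ L := fun v => Finset.le_sup (Finset.mem_univ v)
  let S : V → Finset ℕ := fun f => (Xm f).image fun z => L - l z
  obtain ⟨f, hf, hmin⟩ := Finset.exists_min_image FT (fun f => toColex (S f)) hFTne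
  obtain ⟨hfR, hff, hfw⟩ := (hFT f).1 hf
  refine ⟨f, hfR, hff, hfw, fun Y hY hYa => ?_⟩
  by_contra hcon
  push Not at hcon
  have hXne : (Xm f).Nonempty := hY.mono (hXmax f Y ⟨hYa, hcon⟩)
  -- the map θ
  let θ : V → V := fun z => mt q (τ z) f
  have hθ : ∀ z ∈ Xm f, θ z ∈ Xm f := by
    intro z hz
    obtain ⟨n, hn⟩ := hτ1 z
    have := (hXTC f).2 z hz n
    rw [hn] at this
    exact this
  obtain ⟨z0, hz0, n0, hn0, hz0'⟩ := exists_periodic θ (Xm f) hXne hθ
  let Per : Finset V := (Xm f).filter fun z => ∃ n, 1 ≤ n ∧ θ^[n] z = z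
  have hPer : ∀ z, z ∈ Per ↔ z ∈ Xm f ∧ ∃ n, 1 ≤ n ∧ θ^[n] z = z := fun z => by simp [Per]
  obtain ⟨M, hM, hMmax⟩ := Finset.exists_max_image Per l ⟨z0, (hPer z0).2 ⟨hz0, n0, hn0, hz0'⟩⟩
  obtain ⟨hMX, n, hn, hMn⟩ := (hPer M).1 hM
  have hPθ : ∀ z ∈ Per, θ z ∈ Per := by
    intro z hz
    obtain ⟨h1, k, hk, hk'⟩ := (hPer z).1 hz
    refine (hPer _).2 ⟨hθ z h1, k, hk, ?_⟩
    rw [← Function.iterate_succ_apply, Function.iterate_succ_apply', hk']
  have hPit : ∀ i, θ^[i] M ∈ Per := by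
    intro i
    induction i with
    | zero => exact hM
    | succ i ih =>
      rw [Function.iterate_succ_apply']
      exact hPθ _ ih
  have hXR : ∀ z, z ∈ Xm f → z ∈ R := fun z hz => hRanc f z hfR ((hXTC f).1 z hz).1
  set j := θ^[n - 1] M with hj
  have hjP : j ∈ Per := hPit _
  have hjX : j ∈ Xm f := ((hPer j).1 hjP).1
  have hjM : mt q (τ j) f = M := by
    have h1 : θ^[n - 1 + 1] M = M := by rw [Nat.sub_add_cancel hn, hMn]
    rw [Function.iterate_succ_apply'] at h1
    exact h1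
  have hτj : τ j ∈ R := hτR j (hXR j hjX)
  obtain ⟨f', hf', hf'a⟩ := hfirst (τ j) hτj (hτ2 j)
  obtain ⟨hf'R, hf'f', hf'w⟩ := (hFT f').1 hf'
  have hMM : IsMt q (τ j) f M := hjM ▸ hmt (τ j) f hτj hfR
  have hMf := (hXTC f).1 M hMX
  have hf'M : Anc q f' M := by
    rcases hf'a.comparable hMM.1 with h | h
    · exact h
    · exfalso
      have h1 : Anc q f f' := hMf.1.trans h
      have h2 : f' ≠ f := by
        intro h3
        rw [h3] at h
        exact hMf.2 (hq.antisymm h hMf.1)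
      exact hfw f' h1 h2 hf'f'
  have hIM : IsMt q f' f M := ⟨hf'M, hMf.1, fun m' h1 h2 => hMM.2.2 m' (hf'a.trans h1) h2⟩
  -- Claim 2
  have claim2 : M ∉ Xm f' := by
    intro hMX'
    have hall : ∀ i, θ^[i] M ∈ Xm f' := by
      intro i
      induction i with
      | zero => exact hMX'
      | succ i ih =>
        rw [Function.iterate_succ_apply']
        set z := θ^[i] M with hz
        have hzP : z ∈ Per := hPit i
        have hzX : z ∈ Xm f := ((hPer z).1 hzP).1
        have hτz : τ z ∈ R := hτR z (hXR z hzX)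
        by_cases hb : Anc q (τ z) M
        · have h1 : Anc q (θ z) M := (hmt (τ z) f hτz hfR).2.2 M hb hMf.1
          have h2 : l (θ z) ≤ l M := hMmax _ (hPθ z hzP)
          rw [hq.anc_eq h1 h2]
          exact hMX'
        · have h1 : IsMt q (τ z) f' (θ z) := isMt_transfer hIM hb (hmt (τ z) f hτz hfR)
          rw [← mt_eq hq h1]
          obtain ⟨k, hk⟩ := hτ1 z
          rw [← hk]
          exact (hXTC f').2 z ih k
    have h1 := hall (n - 1)
    rw [← hj] at h1
    obtain ⟨k, hk⟩ := hτ1 j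
    have h2 := (hXTC f').2 j h1 k
    rw [hk] at h2
    have h3 : IsMt q (τ j) f' f' := ⟨hf'a, Anc.refl _ _, fun m' _ h4 => h4⟩
    rw [mt_eq hq h3] at h2
    exact ((hXTC f').1 f' h2).2 rfl
  -- Claim 1
  have claim1 : ∀ z ∈ Xm f', l z < l M → z ∈ Xm f := by
    let Y' := Xm f ∪ (Xm f').filter fun z => l z < l M
    have hY' : TC q pR f Y' := by
      constructor
      · intro z hz
        rcases Finset.mem_union.1 hz with h | h
        · exact (hXTC f).1 z h
        · obtain ⟨h1, h2⟩ := Finset.mem_filter.1 h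
          have h3 := ((hXTC f').1 z h1).1
          have h4 : Anc q M z := hq.anc_of_le hf'M h3 h2.le
          refine ⟨hMf.1.trans h4, fun h5 => ?_⟩
          rw [h5] at h2
          have := hq.anc_le hMf.1
          omega
      · intro z hz t
        rcases Finset.mem_union.1 hz with h | h
        · exact Finset.mem_union_left _ ((hXTC f).2 z h t)
        · obtain ⟨h1, h2⟩ := Finset.mem_filter.1 h
          have h3 := ((hXTC f').1 z h1).1
          have hzR : z ∈ R := hRanc f' z hf'R h3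
          have hw : pR^[t] z ∈ R := hRit z t hzR
          have h4 := (hXTC f').2 z h1 t
          have h5 := hmt (pR^[t] z) f hw hfR
          have h6 := hmt (pR^[t] z) f' hw hf'R
          by_cases hb : Anc q (pR^[t] z) M
          · rcases isMt_below hq hIM hb h5 h6 with h7 | h7
            · rw [h7]
              exact Finset.mem_union_left _ hMX
            · rw [h7] at h4
              exact absurd h4 claim2
          · have h7 := isMt_transfer hIM hb h5
            rw [h7.unique hq h6]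
            refine Finset.mem_union_right _ (Finset.mem_filter.2 ⟨h4, ?_⟩)
            rw [← h7.unique hq h6]
            by_contra h8
            exact hb (h5.1.trans (hq.anc_of_le h5.2.1 hMf.1 (not_lt.1 h8)))
    intro z hz hl
    exact hXmax f Y' hY' (Finset.mem_union_right _ (Finset.mem_filter.2 ⟨hz, hl⟩))
  -- comparison
  have hlt : toColex (S f') < toColex (S f) := by
    rw [Finset.Colex.toColex_lt_toColex_iff_exists_forall_lt]
    refine ⟨L - l M, Finset.mem_image_of_mem _ hMX, fun h => ?_, fun b hb hb' => ?_⟩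
    · obtain ⟨z, hz, hzl⟩ := Finset.mem_image.1 h
      have h1 := hlL z
      have h2 := hlL M
      have h3 : z = M := hq.anc_unique ((hXTC f').1 z hz).1 hf'M (by omega)
      rw [h3] at hz
      exact claim2 hz
    · obtain ⟨z, hz, rfl⟩ := Finset.mem_image.1 hb
      have h1 : z ∉ Xm f := fun h => hb' (Finset.mem_image_of_mem _ h)
      have h2 : ¬ l z < l M := fun h => h1 (claim1 z hz h)
      have h3 : l z ≠ l M := fun h => by
        have h3 : z = M := hq.anc_unique ((hXTC f').1 z hz).1 hf'M h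
        rw [h3] at hz
        exact claim2 hz
      have h4 := hlL z
      have h5 := hlL M
      omega
  exact absurd (hmin f' hf') (not_le.2 hlt)

end Pool.Agent.L7h33.BD
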