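import Pool.Agent.L7h33.BD.Mach

/-! # Terminal states of trees -/

set_option autoImplicit false

namespace Pool.Agent.L7h33.BD

open SimpleGraph Finset

/-- Bad skeleton vertices. -/
def Bad {X : Type} (par : X → X) (Sk : Finset X) (B : SimpleGraph X) (p : X → X) (v : X) : Prop :=
  v ∈ Sk ∧ ∃ R, Clo par Sk B p R ∧ v ∈ R

theorem exists_max_clo {X : Type} [Fintype X] {par : X → X} {Sk : Finset X} {B : SimpleGraph X}
    {p : X → X} {R : Set X} (hR : Clo par Sk B p R) : ∃ R', Clo par Sk B p R' ∧ R ⊆ R' ∧
      ∀ R'', Clo par Sk B p R'' → R' ⊆ R'' → R'' = R' := by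
  classical
  obtain ⟨R', hR', hmax⟩ := Finset.exists_max_image
    ((Finset.univ : Finset (Set X)).filter fun R' => Clo par Sk B p R' ∧ R ⊆ R')
    (fun R' => R'.ncard) ⟨R, by simp [hR]⟩
  simp only [Finset.mem_filter, Finset.mem_univ, true_and] at hR' hmax
  refine ⟨R', hR'.1, hR'.2, fun R'' h1 h2 => ?_⟩
  exact (Set.eq_of_subset_of_ncard_le h2 (hmax R'' ⟨h1, hR'.2.trans h2⟩) (Set.toFinite _)).symm

theorem exists_terminal (h : ℕ) : ∀ k n : ℕ, ∃ N, ∀ (X : Type) [Fintype X] (par p₀ : X → X)
    (x : X) (L : X → ℕ), Lv par L → (∀ v, L v ≤ h) → (∀ v, Anc par v x) →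
    ∀ (Sk : Finset X) (B : SimpleGraph X) (p : X → X), St par p₀ x Sk B p → Sk.card ≤ n →
    (∀ v, Bad par Sk B p v → h < L v + k) →
    ∃ (Sk' : Finset X) (B' : SimpleGraph X) (p' : X → X), St par p₀ x Sk' B' p' ∧
      Sk'.card ≤ N ∧ ∀ v, ¬ Bad par Sk' B' p' v := by
  classical
  intro k
  induction k with
  | zero =>
    intro n
    refine ⟨n, fun X _ par p₀ x L hL hh hroot Sk B p hst hn hbad => ⟨Sk, B, p, hst, hn,
      fun v hv => ?_⟩⟩
    have h1 := hbad v hv
    have h2 := hh v
    omega
  | succ k ihk =>
    have inner : ∀ c n : ℕ, ∃ N, ∀ (X : Type) [Fintype X] (par p₀ : X → X)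
        (x : X) (L : X → ℕ), Lv par L → (∀ v, L v ≤ h) → (∀ v, Anc par v x) →
        ∀ (Sk : Finset X) (B : SimpleGraph X) (p : X → X), St par p₀ x Sk B p → Sk.card ≤ n →
        (∀ v, Bad par Sk B p v → h < L v + (k + 1)) →
        (Finset.univ.filter fun v => Bad par Sk B p v ∧ L v + k = h).card ≤ c →
        ∃ (Sk' : Finset X) (B' : SimpleGraph X) (p' : X → X), St par p₀ x Sk' B' p' ∧
          Sk'.card ≤ N ∧ ∀ v, ¬ Bad par Sk' B' p' v := by
      intro c
      induction c with
      | zero =>
        intro n
        obtain ⟨N, hN⟩ := ihk n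
        refine ⟨N, fun X _ par p₀ x L hL hh hroot Sk B p hst hn hbad hc => ?_⟩
        refine hN X par p₀ x L hL hh hroot Sk B p hst hn fun v hv => ?_
        have h1 := hbad v hv
        have h2 : L v + k ≠ h := by
          intro h3
          have h4 : v ∈ Finset.univ.filter fun v => Bad par Sk B p v ∧ L v + k = h := by
            simp [hv, h3]
          have h5 := Finset.card_pos.2 ⟨v, h4⟩
          omega
        omega
      | succ c ihc =>
        intro n
        obtain ⟨N1, hN1⟩ := ihc (n + 3 * (n + h + 1) * (h + 1))
        obtain ⟨N2, hN2⟩ := ihk n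
        refine ⟨max N1 N2, fun X _ par p₀ x L hL hh hroot Sk B p hst hn hbad hc => ?_⟩
        by_cases hex : ∃ z, Bad par Sk B p z ∧ L z + k = h
        · obtain ⟨z, ⟨hzS, R0, hR0, hzR0⟩, hzk⟩ := hex
          obtain ⟨R, hR, hRR, hmax⟩ := exists_max_clo hR0
          have hzR : z ∈ R := hRR hzR0
          obtain ⟨Sk', B', p', hst', hsub, hcard, hnew, hcl⟩ :=
            step hL hh hroot hst hR hmax hzR hzS
          -- vertices of `R` off the skeleton are deeper
          have hdeep : ∀ m v, L v ≤ m → v ∈ R → v ∉ Sk → h < L v + k := by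
            intro m
            induction m with
            | zero =>
              intro v hv hvR hvS
              have h1 : par v ≠ v := by
                intro h1
                have h2 := (hroot v).of_fix h1
                exact hvS (h2 ▸ hst.root)
              have := hL.suc v h1
              omega
            | succ m ih =>
              intro v hv hvR hvS
              have h1 : par v ≠ v := by
                intro h1
                have h2 := (hroot v).of_fix h1
                exact hvS (h2 ▸ hst.root)
              have h2 := hL.suc v h1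
              have h3 : par v ∈ R := (hR.cell v hvS).1 hvR
              by_cases h4 : par v ∈ Sk
              · have h5 := hbad (par v) ⟨h4, R, hR, h3⟩
                omega
              · have h5 := ih (par v) (by omega) h3 h4
                omega
          have hbad' : ∀ v, Bad par Sk' B' p' v → v ≠ z ∧
              (Bad par Sk B p v ∨ h < L v + k) := by
            rintro v ⟨hvS', R', hR', hvR'⟩
            obtain ⟨h1, h2⟩ := hcl R' hR'
            refine ⟨fun h3 => h1 (h3 ▸ hvR'), ?_⟩
            rcases h2 with ⟨h3, h4⟩ | h3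
            · left
              refine ⟨?_, R', h4, hvR'⟩
              by_contra hvS
              exact h3 v hvR' (hnew v hvS' hvS)
            · by_cases hvS : v ∈ Sk
              · exact Or.inl ⟨hvS, R, hR, h3 hvR'⟩
              · exact Or.inr (hdeep _ v le_rfl (h3 hvR') hvS)
          obtain ⟨Sk'', B'', p'', h1, h2, h3⟩ := hN1 X par p₀ x L hL hh hroot Sk' B' p' hst'
            (by
              have h5 : 3 * (Sk.card + h + 1) * (h + 1) ≤ 3 * (n + h + 1) * (h + 1) := by
                gcongr
              omega)
            (fun v hv => by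
              rcases (hbad' v hv).2 with h4 | h4
              · exact hbad v h4
              · omega)
            (by
              have h4 : (Finset.univ.filter fun v => Bad par Sk' B' p' v ∧ L v + k = h) ⊆
                  (Finset.univ.filter fun v => Bad par Sk B p v ∧ L v + k = h).erase z := by
                intro v hv
                simp only [Finset.mem_filter, Finset.mem_univ, true_and] at hv
                obtain ⟨h5, h6⟩ := hbad' v hv.1
                refine Finset.mem_erase.2 ⟨h5, ?_⟩
                simp only [Finset.mem_filter, Finset.mem_univ, true_and]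
                rcases h6 with h6 | h6
                · exact ⟨h6, hv.2⟩
                · exfalso
                  have := hv.2
                  omega
              have h5 := Finset.card_le_card h4
              rw [Finset.card_erase_of_mem (by
                simp only [Finset.mem_filter, Finset.mem_univ, true_and]
                exact ⟨⟨hzS, R0, hR0, hzR0⟩, hzk⟩)] at h5
              omega)
          exact ⟨Sk'', B'', p'', h1, h2.trans (le_max_left _ _), h3⟩
        · push Not at hex
          obtain ⟨Sk'', B'', p'', h1, h2, h3⟩ := hN2 X par p₀ x L hL hh hroot Sk B p hst hn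
            (fun v hv => by
              have h4 := hbad v hv
              have h5 := hex v hv
              omega)
          exact ⟨Sk'', B'', p'', h1, h2.trans (le_max_right _ _), h3⟩
    intro n
    obtain ⟨N, hN⟩ := inner n n
    refine ⟨N, fun X _ par p₀ x L hL hh hroot Sk B p hst hn hbad => ?_⟩
    refine hN X par p₀ x L hL hh hroot Sk B p hst hn hbad ((Finset.card_le_card ?_).trans hn)
    intro v hv
    simp only [Finset.mem_filter, Finset.mem_univ, true_and] at hv
    exact hv.1.1

/-- The chains in a terminal state. -/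
theorem terminal_chain {X : Type} [Fintype X] {par p₀ : X → X} {x : X} {L : X → ℕ}
    {Sk : Finset X} {B : SimpleGraph X} {p : X → X} (hL : Lv par L) {h : ℕ}
    (hh : ∀ v, L v ≤ h) (hst : St par p₀ x Sk B p)
    (hbad : ∀ v, ¬ Bad par Sk B p v) {q : X → X} {l : X → ℕ} (hq : Rtd B Set.univ x q l)
    {a : X} (ha : a ∈ Sk) :
    ∃ j ≤ Sk.card, ∃ y : ℕ → X, y 0 = a ∧ (∀ i ≤ j, y i ∈ Sk) ∧
      (∀ i < j, p (y i) ≠ y i ∧ Anc q (p (y i)) (y (i + 1)) ∧ Anc q (y (i + 1)) a ∧
        y (i + 1) ≠ a) ∧
      (p (y j) = y j ∨ ¬ Anc q (p (y j)) a) := by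
  classical
  let Sq : ℕ → (ℕ → X) → Prop := fun j y => y 0 = a ∧ (∀ i ≤ j, y i ∈ Sk) ∧
    ∀ i < j, p (y i) ≠ y i ∧ Anc q (p (y i)) (y (i + 1)) ∧ Anc q (y (i + 1)) a ∧ y (i + 1) ≠ a
  have hoff := off_eq hL hh hst hq hst.root
  have hex : ∃ j, ∃ y, Sq j y ∧ (p (y j) = y j ∨ ¬ Anc q (p (y j)) a) := by
    by_contra hcon
    push Not at hcon
    let W : Set X := {u | ∃ j y, Sq j y ∧ y j = u}
    have haW : a ∈ W := ⟨0, fun _ => a, ⟨rfl, fun i _ => ha, fun i hi => absurd hi (by omega)⟩, rfl⟩
    have hWex : ∀ u, u ∈ W → p u ≠ u ∧ Anc q (p u) a := by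
      rintro u ⟨j, y, h1, rfl⟩
      exact hcon j y h1
    have hWst : ∀ u w, u ∈ W → w ∈ Sk → Anc q (p u) w → Anc q w a → w ∈ W := by
      intro u w hu hw h1 h2
      by_cases hwa : w = a
      · rw [hwa]
        exact haW
      · have h3 := hWex u hu
        obtain ⟨j, y, ⟨h4, h5, h6⟩, h7⟩ := hu
        refine ⟨j + 1, fun i => if i ≤ j then y i else w, ⟨?_, fun i hi => ?_, fun i hi => ?_⟩, ?_⟩
        · simp [h4]
        · by_cases h8 : i ≤ j
          · simp only [h8, if_true]
            exact h5 i h8
          · simp only [h8, if_false]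
            exact hw
        · have h8 : i ≤ j := by omega
          by_cases h9 : i + 1 ≤ j
          · simp only [h8, h9, if_true]
            exact h6 i (by omega)
          · have h10 : i = j := by omega
            simp only [h8, h9, if_true, if_false]
            rw [h10, h7]
            exact ⟨h3.1, h1, h2, hwa⟩
        · simp
    let R : Set X := {v | Anc q v a ∧ ∀ w, w ∈ Sk → Anc q v w → Anc q w a → w ∈ W}
    refine hbad a ⟨ha, R, ⟨fun v hv => ?_, ?_, fun u hu huS => ?_⟩, Anc.refl _ _,
      fun w _ h1 h2 => ?_⟩
    · have hva : v ≠ a := fun h1 => hv (h1 ▸ ha)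
      rw [← hoff v (Set.mem_univ _) hv]
      refine and_congr (anc_step_iff hva) (forall_congr' fun w => forall_congr' fun hw => ?_)
      rw [anc_step_iff (f := q) (show v ≠ w from fun h1 => hv (h1 ▸ hw))]
    · have key : ∀ m v, l v ≤ m → v ∈ R → (rst B R).Reachable v a := by
        intro m
        induction m with
        | zero =>
          intro v hm hv
          have h1 : v = a := by
            refine hq.lv.anc_eq hv.1 ?_
            omega
          rw [h1]
        | succ m ih =>
          intro v hm hv
          by_cases hva : v = a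
          · rw [hva]
          · have h1 : q v ≠ v := fun h1 => hva (hv.1.of_fix h1).symm
            have h2 : q v ∈ R := ⟨(anc_step_iff hva).1 hv.1,
              fun w hw h3 h4 => hv.2 w hw (Anc.of_step h3) h4⟩
            have h3 := hq.lv.suc v h1
            have h4 : (rst B R).Adj v (q v) := ⟨(hq.adj v h1).2, hv, h2⟩
            exact h4.reachable.trans (ih (q v) (by omega) h2)
      intro u hu v hv
      exact (key _ u le_rfl hu).trans (key _ v le_rfl hv).symm
    · have huW : u ∈ W := hu.2 u huS (Anc.refl _ _) hu.1
      have h1 := hWex u huW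
      exact ⟨h1.1, h1.2, fun w hw h2 h3 => hWst u w huW hw h2 h3⟩
    · rw [hq.lv.antisymm h2 h1]
      exact haW
  -- a shortest chain
  obtain ⟨y, ⟨hy0, hyS, hyst⟩, hyex⟩ := Nat.find_spec hex
  set j := Nat.find hex with hj
  refine ⟨j, ?_, y, hy0, hyS, hyst, hyex⟩
  have hinj : ∀ s t, s < t → t ≤ j → y s ≠ y t := by
    intro s t hst' htj heq
    refine Nat.find_min hex (m := j - (t - s)) (by omega) ?_
    refine ⟨fun i => if i ≤ s then y i else y (i + (t - s)), ⟨?_, fun i hi => ?_,
      fun i hi => ?_⟩, ?_⟩
    · simp [hy0]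
    · by_cases h1 : i ≤ s
      · simp only [h1, if_true]
        exact hyS i (by omega)
      · simp only [h1, if_false]
        exact hyS _ (by omega)
    · by_cases h1 : i + 1 ≤ s
      · have h2 : i ≤ s := by omega
        simp only [h1, h2, if_true]
        exact hyst i (by omega)
      · by_cases h2 : i ≤ s
        · have h3 : i = s := by omega
          simp only [h1, h2, if_true, if_false]
          rw [h3, heq]
          have h4 := hyst t (by omega)
          rw [show s + 1 + (t - s) = t + 1 by omega]
          exact h4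
        · simp only [h1, h2, if_false]
          have h4 := hyst (i + (t - s)) (by omega)
          rw [show i + 1 + (t - s) = i + (t - s) + 1 by omega]
          exact h4
    · by_cases h1 : j - (t - s) ≤ s
      · have h2 : j = t := by omega
        have h3 : j - (t - s) = s := by omega
        simp only [h3, le_refl, if_true]
        rw [heq, ← h2]
        exact hyex
      · simp only [h1, if_false]
        rw [show j - (t - s) + (t - s) = j by omega]
        exact hyex
  have h1 : (Finset.range (j + 1)).card ≤ Sk.card := by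
    refine Finset.card_le_card_of_injOn y (fun i hi => ?_) ?_
    · simp only [Finset.coe_range, Set.mem_Iio] at hi
      exact hyS i (by omega)
    · intro s hs t ht heq
      simp only [Finset.coe_range, Set.mem_Iio] at hs ht
      rcases lt_trichotomy s t with h1 | h1 | h1
      · exact absurd heq (hinj s t h1 (by omega))
      · exact h1
      · exact absurd heq.symm (hinj t s h1 (by omega))
  rw [Finset.card_range] at h1
  omega

set_option maxHeartbeats 4000000 in
/-- Terminal states exist for trees. -/
theorem treeTerm : TreeTerm := by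
  classical
  intro h
  obtain ⟨N, hN⟩ := exists_terminal h (h + 1) 1
  refine ⟨N + h, fun X _ par p x hx hroot hdp hacy => ?_⟩
  obtain ⟨L, hL, hh⟩ := hdp.exists_lv
  have htree : (tg par).IsTree := by
    refine ⟨?_, tg_acyclic hL.acy⟩
    have : Nonempty X := ⟨x⟩
    exact ⟨fun u v => (reach_tg (hroot u)).trans (reach_tg (hroot v)).symm⟩
  have hst0 : St par p x {x} (tg par) p := by
    refine ⟨by simp, fun v hv => ?_, htree, fun u v _ => Iff.rfl, fun u v _ => Iff.rfl,
      fun v => Iff.rfl, fun R _ => hacy.mono fun v => rsf_or v, ?_⟩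
    · rw [Finset.mem_singleton] at hv ⊢
      rw [hv, hx]
    · obtain ⟨φ, hφ⟩ := hacy
      exact ⟨φ, fun v hv _ => hφ v hv⟩
  obtain ⟨Sk, B, p', hst, hcard, hbad⟩ := hN X par p x L hL hh hroot {x} (tg par) p hst0
    (by simp) (fun v _ => by omega)
  have hconn : ∀ u, u ∈ (Set.univ : Set X) → (rst B Set.univ).Reachable u x := by
    intro u _
    refine reach_mono (B := B) (fun s t h1 => Adj.reachable ⟨h1, Set.mem_univ _, Set.mem_univ _⟩)
      (hst.tree.connected.preconnected u x)
  obtain ⟨q, l, hq1, hq2, hq3, hq4, hq5, hq6, hq7⟩ := root_at B hst.tree.isAcyclic Set.univ x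
    (Set.mem_univ _) hconn
  have hq : Rtd B Set.univ x q l := ⟨hq1, Set.mem_univ _, hq2, hq3, hq4, hq5, hq6, hq7⟩
  have hparfix : ∀ v, par v = v ↔ v = x := by
    intro v
    constructor
    · intro h1
      exact ((hroot v).of_fix h1).symm
    · intro h1
      rw [h1, hx]
  have hqfix : ∀ v, q v = v ↔ v = x := by
    intro v
    constructor
    · intro h1
      by_contra h2
      exact hq4 v (Set.mem_univ _) h2 h1
    · intro h1
      rw [h1, hq2]
  have hsame : ∀ u v, SameT par u v := fun u v => ⟨x, hx, hroot u, hroot v⟩
  have hBq : ∀ u v, u ≠ v → (B.Adj u v ↔ (q u = v ∨ q v = u)) := by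
    intro u v hne
    constructor
    · exact hq6 u v (Set.mem_univ _) (Set.mem_univ _)
    · rintro (h1 | h1)
      · have := (hq5 u (by rw [h1]; exact hne.symm)).2
        rwa [h1] at this
      · have := (hq5 v (by rw [h1]; exact hne)).2
        rw [h1] at this
        exact this.symm
  refine ⟨(Sk : Set X), q, p', ⟨⟨fun v => (hqfix v).trans (hparfix v).symm, fun v => hsame _ _,
    hst.fix, fun v h1 => absurd (hsame _ _) h1, fun v _ => hsame _ _, fun u v hne => ?_⟩, ?_,
    fun v hv => ?_, fun v hv => hst.up v hv, fun v hv => off_eq hL hh hst hq hst.root v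
      (Set.mem_univ _) hv, fun v hv => on_mem hL hh hst hq hst.root v (Set.mem_univ _) hv,
    fun a ha _ _ => ?_, hst.acyc'⟩⟩
  · have h1 := hst.edges u v hne
    have h2 : (tg par).Adj u v ↔ (par u = v ∨ par v = u) := by
      rw [tg_adj]
      exact and_iff_right hne
    rw [hBq u v hne, h2, or_assoc, or_assoc] at h1
    exact h1
  · refine hq1.dp fun v => ?_
    have h1 := lev_le hL hh hst hq hst.root v (Set.mem_univ _)
    have h2 := hh v
    omega
  · rw [(hparfix v).1 hv]
    exact hst.root
  · obtain ⟨j, hj, y, h1, h2, h3, h4⟩ := terminal_chain hL hh hst hbad hq (a := a) ha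
    exact ⟨j, by omega, y, h1, fun i hi => h2 i hi, h3, h4⟩

end Pool.Agent.L7h33.BD
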